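import Pool.Agent.Helper18.Dub.Bridge

/-!
# Derivations of the total algebra of a potential multiplication

`A` is a commutative algebra over `ℂ[[t_a : a ∈ σ]]`, free with basis `φ_a`, `a ∈ σ`, whose structure
constants satisfy `∂_a c_{bc}^k = ∂_b c_{ac}^k`. Its total ring has the derivations `Θ_{ab}`.
-/

open scoped BigOperators
open Finset MvPowerSeries

namespace Pool.Agent.Helper5.DubGen

open Pool.Agent.Helper18.Dub

variable {σ : Type} [Fintype σ] [DecidableEq σ] (A : AlgStr (MvPowerSeries σ ℂ) σ)

/-- coordinatewise derivative -/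
noncomputable def cd (i : σ) (x : A.Carrier) : A.Carrier := fun k => pderiv ℂ i (x k)

theorem cd_apply (i : σ) (x : A.Carrier) (k : σ) : cd A i x k = pderiv ℂ i (x k) := rfl

theorem cd_add (i : σ) (x y : A.Carrier) : cd A i (x + y) = cd A i x + cd A i y := by
  funext k
  rw [cd_apply, AlgStr.add_apply, AlgStr.add_apply, map_add]
  rfl

theorem cd_smul (i : σ) (f : MvPowerSeries σ ℂ) (x : A.Carrier) :
    cd A i (f • x) = f • cd A i x + pderiv ℂ i f • x := by
  funext k
  rw [cd_apply, AlgStr.smul_apply, AlgStr.add_apply, AlgStr.smul_apply, AlgStr.smul_apply,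
    Derivation.leibniz, smul_eq_mul, smul_eq_mul, cd_apply]
  ring

theorem cd_sum (i : σ) {α : Type*} (s : Finset α) (f : α → A.Carrier) :
    cd A i (∑ a ∈ s, f a) = ∑ a ∈ s, cd A i (f a) := by
  classical
  induction s using Finset.induction_on with
  | empty =>
    funext k
    simp only [Finset.sum_empty]
    rw [cd_apply, AlgStr.zero_apply, map_zero]
  | insert a s ha ih => rw [Finset.sum_insert ha, Finset.sum_insert ha, cd_add, ih]

theorem cd_basis (i c : σ) : cd A i (A.basis c) = 0 := by
  funext k
  rw [cd_apply, AlgStr.basis_apply, AlgStr.zero_apply]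
  split_ifs
  · exact Derivation.map_one_eq_zero _
  · exact map_zero _

/-- expansion in the basis -/
theorem expand (x : A.Carrier) : ∑ c, x c • A.basis c = x := A.basis.sum_repr x

/-- the operator attached to the values on the coordinates and on the basis -/
noncomputable def op (v w : σ → A.Carrier) (x : A.Carrier) : A.Carrier :=
  ∑ i, v i * cd A i x + ∑ c, x c • w c

theorem op_add (v w : σ → A.Carrier) (x y : A.Carrier) :
    op A v w (x + y) = op A v w x + op A v w y := by
  simp only [op, cd_add, mul_add, Finset.sum_add_distrib, AlgStr.add_apply, add_smul]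
  abel

theorem op_smul (v w : σ → A.Carrier) (f : MvPowerSeries σ ℂ) (x : A.Carrier) :
    op A v w (f • x) = f • op A v w x + (∑ i, pderiv ℂ i f • v i) * x := by
  simp only [op, cd_smul, mul_add, Finset.sum_add_distrib, AlgStr.smul_apply, smul_add,
    Finset.smul_sum, Finset.sum_mul, mul_smul_comm, smul_mul_assoc, mul_smul]
  abel

theorem op_basis (v w : σ → A.Carrier) (c : σ) : op A v w (A.basis c) = w c := by
  rw [op]
  simp only [cd_basis, mul_zero, Finset.sum_const_zero, zero_add]
  rw [Finset.sum_eq_single c]
  · rw [AlgStr.basis_apply, if_pos rfl, one_smul]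
  · intro b _ hb
    rw [AlgStr.basis_apply, if_neg (Ne.symm hb), zero_smul]
  · intro h
    exact absurd (Finset.mem_univ _) h

theorem op_sum (v w : σ → A.Carrier) {α : Type*} (s : Finset α) (f : α → A.Carrier) :
    op A v w (∑ a ∈ s, f a) = ∑ a ∈ s, op A v w (f a) := by
  classical
  induction s using Finset.induction_on with
  | empty =>
    simp only [Finset.sum_empty]
    have h := op_smul A v w 0 0
    simpa using h
  | insert a s ha ih => rw [Finset.sum_insert ha, Finset.sum_insert ha, op_add, ih]

/-- the compatibility making `op` a derivation -/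
def Compat (v w : σ → A.Carrier) : Prop :=
  ∀ b c, op A v w (A.basis b * A.basis c) = w b * A.basis c + A.basis b * w c

theorem op_mul {v w : σ → A.Carrier} (h : Compat A v w) (x y : A.Carrier) :
    op A v w (x * y) = op A v w x * y + x * op A v w y := by
  have hb : ∀ b (y : A.Carrier), op A v w (A.basis b * y) =
      w b * y + A.basis b * op A v w y := by
    intro b y
    conv_lhs => rw [← expand A y]
    conv_rhs => rw [← expand A y]
    rw [Finset.mul_sum, op_sum, op_sum, Finset.mul_sum, Finset.mul_sum, ← Finset.sum_add_distrib]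
    refine Finset.sum_congr rfl fun c _ => ?_
    rw [mul_smul_comm, op_smul, h b c, op_smul, op_basis]
    simp only [mul_add, smul_add, mul_smul_comm]
    ring
  conv_lhs => rw [← expand A x]
  conv_rhs => rw [← expand A x]
  rw [Finset.sum_mul, op_sum, op_sum, Finset.sum_mul, Finset.sum_mul, ← Finset.sum_add_distrib]
  refine Finset.sum_congr rfl fun c _ => ?_
  rw [smul_mul_assoc, op_smul, hb c y, op_smul, op_basis]
  simp only [smul_add, smul_mul_assoc, add_mul]
  ring

theorem op_one {v w : σ → A.Carrier} (h : Compat A v w) : op A v w 1 = 0 := by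
  have h1 := op_mul A h 1 1
  rw [mul_one, mul_one, one_mul] at h1
  exact left_eq_add.mp h1

/-- linear combinations of compatible pairs are compatible -/
theorem Compat.combo {α : Type*} (s : Finset α) (q : α → A.Carrier) {v w : α → σ → A.Carrier}
    (h : ∀ a ∈ s, Compat A (v a) (w a)) :
    Compat A (fun i => ∑ a ∈ s, q a * v a i) (fun c => ∑ a ∈ s, q a * w a c) := by
  have hop : ∀ x, op A (fun i => ∑ a ∈ s, q a * v a i) (fun c => ∑ a ∈ s, q a * w a c) x =
      ∑ a ∈ s, q a * op A (v a) (w a) x := by
    intro x
    simp only [op, mul_add, Finset.mul_sum, Finset.sum_mul, Finset.smul_sum,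
      Finset.sum_add_distrib]
    congr 1
    · rw [Finset.sum_comm]
      refine Finset.sum_congr rfl fun a _ => Finset.sum_congr rfl fun i _ => ?_
      ring
    · rw [Finset.sum_comm]
      refine Finset.sum_congr rfl fun a _ => Finset.sum_congr rfl fun i _ => ?_
      rw [mul_smul_comm]
  intro b c
  rw [hop, Finset.sum_mul, Finset.mul_sum, ← Finset.sum_add_distrib]
  refine Finset.sum_congr rfl fun a ha => ?_
  rw [h a ha b c]
  ring

section potential

variable (hpot : ∀ a b c k, pderiv ℂ a (A.m b c k) = pderiv ℂ b (A.m a c k))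

/-- `T_{abc} = ∂_a (φ_b φ_c)` -/
noncomputable def T (a b c : σ) : A.Carrier := cd A a (A.basis b * A.basis c)

theorem T_apply (a b c k : σ) : T A a b c k = pderiv ℂ a (A.m b c k) := by
  rw [T, cd_apply, AlgStr.basis_mul_basis]

theorem T_comm23 (a b c : σ) : T A a b c = T A a c b := by
  rw [T, T, mul_comm]

include hpot in
theorem T_comm12 (a b c : σ) : T A a b c = T A b a c := by
  funext k
  rw [T_apply, T_apply, hpot]

/-- `Q_{bc;ad} = ∑_k c_{bc}^k T_{kad}` -/
noncomputable def Q (b c a d : σ) : A.Carrier := ∑ k, A.m b c k • T A k a d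

include hpot in
theorem cd_triple (a b c d : σ) : cd A a (A.basis b * A.basis c * A.basis d) =
    T A a b c * A.basis d + Q A b c a d := by
  have h1 : A.basis b * A.basis c = ∑ k, A.m b c k • A.basis k := by
    rw [← expand A (A.basis b * A.basis c)]
    refine Finset.sum_congr rfl fun k _ => ?_
    rw [AlgStr.basis_mul_basis]
  have h2 : T A a b c = ∑ k, pderiv ℂ a (A.m b c k) • A.basis k := by
    rw [← expand A (T A a b c)]
    refine Finset.sum_congr rfl fun k _ => ?_
    rw [T_apply]
  rw [h2, Q, h1, Finset.sum_mul, cd_sum, Finset.sum_mul, ← Finset.sum_add_distrib]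
  refine Finset.sum_congr rfl fun k _ => ?_
  rw [smul_mul_assoc, cd_smul, T_comm12 A hpot k a d, smul_mul_assoc]
  rw [T]
  abel

/-- values of `Θ_{ab}` on the coordinates -/
noncomputable def vT (a b : σ) (i : σ) : A.Carrier :=
  (if b = i then A.basis a else 0) + (if a = i then A.basis b else 0) - A.m a b i • 1

/-- values of `Θ_{ab}` on the basis -/
noncomputable def wT (a b : σ) (c : σ) : A.Carrier := T A c a b

include hpot in
/-- **the F-manifold identity** -/
theorem compat_T (a b : σ) : Compat A (vT A a b) (wT A a b) := by
  intro c d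
  have h1 : op A (vT A a b) (wT A a b) (A.basis c * A.basis d) =
      A.basis a * T A b c d + A.basis b * T A a c d - Q A a b c d + Q A c d a b := by
    rw [op]
    congr 1
    · have h2 : ∀ i, vT A a b i * cd A i (A.basis c * A.basis d) =
          (if b = i then A.basis a * T A i c d else 0) +
            (if a = i then A.basis b * T A i c d else 0) - A.m a b i • T A i c d := by
        intro i
        rw [vT, sub_mul, add_mul, smul_mul_assoc, one_mul]
        congr 2
        · split_ifs
          · rfl
          · rw [zero_mul]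
        · split_ifs
          · rfl
          · rw [zero_mul]
      rw [Finset.sum_congr rfl fun i _ => h2 i, Finset.sum_sub_distrib, Finset.sum_add_distrib,
        Finset.sum_ite_eq, Finset.sum_ite_eq, if_pos (Finset.mem_univ _),
        if_pos (Finset.mem_univ _)]
      rfl
    · rw [Q]
      refine Finset.sum_congr rfl fun k _ => ?_
      rw [AlgStr.basis_mul_basis]
      rfl
  rw [h1]
  have e1 : T A b c d * A.basis a + Q A c d b a = T A b c a * A.basis d + Q A c a b d := by
    rw [← cd_triple A hpot b c d a, ← cd_triple A hpot b c a d, mul_right_comm]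
  have e2 : T A d a b * A.basis c + Q A a b d c = T A d a c * A.basis b + Q A a c d b := by
    rw [← cd_triple A hpot d a b c, ← cd_triple A hpot d a c b, mul_right_comm]
  have q1 : Q A c d b a = Q A c d a b := by
    simp only [Q]
    refine Finset.sum_congr rfl fun k _ => ?_
    rw [T_comm23]
  have q2 : Q A a b d c = Q A a b c d := by
    simp only [Q]
    refine Finset.sum_congr rfl fun k _ => ?_
    rw [T_comm23]
  have q3 : Q A a c d b = Q A c a b d := by
    simp only [Q]
    refine Finset.sum_congr rfl fun k _ => ?_
    rw [T_comm23, A.comm a c k]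
  have t1 : T A b c a = T A c a b := by
    rw [T_comm12 A hpot b c a, T_comm23]
  have t2 : T A d a c = T A a c d := by
    rw [T_comm12 A hpot d a c, T_comm23]
  rw [q1, t1] at e1
  rw [q2, t2, q3] at e2
  simp only [wT]
  linear_combination e1 - e2

end potential

end Pool.Agent.Helper5.DubGen
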