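import Pool.Agent.Helper5.DubGen.GFrac
import Pool.Agent.Helper18.Dub.Bridge

/-!
# Big quantum cohomology along a subspace: assembly
-/

open scoped BigOperators
open Finset MvPowerSeries

namespace Pool.Agent.Helper5.DubGen.G

open Pool.Agent.Helper18.Dub

variable {κ ν : Type} [Fintype κ] [DecidableEq κ] [Fintype ν] [DecidableEq ν]
  (K : Type) [Field K] [Algebra (MvPowerSeries κ ℂ) K] [IsFractionRing (MvPowerSeries κ ℂ) K]
  (X : FanoGW (κ ⊕ ν))

/-- big quantum cohomology over `K[[t_ν]]` -/
noncomputable def AX : AlgStr (MvPowerSeries ν K) (κ ⊕ ν) := X.QH.map (psi K)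

/-- quantum cohomology at the generic point of the span of the `φ_a`, `a ∈ κ` -/
noncomputable def BX : AlgStr K (κ ⊕ ν) := X.QHres.map (algebraMap (MvPowerSeries κ ℂ) K)

omit [IsFractionRing (MvPowerSeries κ ℂ) K] in
theorem AX_m (a b k : κ ⊕ ν) : (AX K X).m a b k = psi K (X.sc a b k) := rfl

omit [IsFractionRing (MvPowerSeries κ ℂ) K] in
theorem AX_map : (AX K X).map (constantCoeff (σ := ν) (R := K)) = BX K X := by
  have hext : ∀ A B : AlgStr K (κ ⊕ ν), A.m = B.m → A.one = B.one → A = B := by
    intro A B h1 h2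
    cases A; cases B
    simp only at h1 h2
    subst h1; subst h2
    rfl
  refine hext _ _ ?_ rfl
  funext a b k
  exact constantCoeff_psi K _

omit [IsFractionRing (MvPowerSeries κ ℂ) K] in
theorem AX_disc : (AX K X).disc = psi K X.QH.disc := AlgStr.disc_map _ _

theorem hpot (a b c k : κ ⊕ ν) : DD K a ((AX K X).m b c k) = DD K b ((AX K X).m a c k) := by
  rw [AX_m, AX_m, DD_psi, DD_psi, X.pderiv_sc]

/-- coefficients of the Euler field -/
noncomputable def EX (i : κ ⊕ ν) : MvPowerSeries ν K := psi K (X.euler i)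

/-- degrees -/
noncomputable def pX (i : κ ⊕ ν) : MvPowerSeries ν K :=
  psi K (C (X.deg i : ℂ) : MvPowerSeries (κ ⊕ ν) ℂ)

theorem heul (b c k : κ ⊕ ν) : ∑ i, EX K X i * DD K i ((AX K X).m b c k) =
    (pX K X b + pX K X c - pX K X k) * (AX K X).m b c k := by
  have h := congrArg (psi K) (X.euler_sc b c k)
  rw [map_sum, map_mul, map_sub, map_add, map_sub, map_add] at h
  rw [pX, pX, pX, AX_m, ← h]
  refine Finset.sum_congr rfl fun i _ => ?_
  rw [map_mul, DD_psi]
  rfl

/-- the subalgebra generated by the `φ_a`, `a ∈ κ`, an element `c`, and the elements with separable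
minimal polynomial -/
noncomputable def genC {F : Type} [Field F] (B : AlgStr F (κ ⊕ ν)) (c : B.Carrier) :
    Subalgebra F B.Carrier :=
  Algebra.adjoin F ((Set.range fun a : κ => B.basis (Sum.inl a)) ∪ {c} ∪
    {x | (minpoly F x).Separable})

/-- `c_1(X)` at the generic point of the subspace -/
noncomputable def c1v (B : AlgStr K (κ ⊕ ν)) : B.Carrier :=
  fun k => algebraMap (MvPowerSeries κ ℂ) K (C (X.chern k))

omit [IsFractionRing (MvPowerSeries κ ℂ) K] in
theorem constantCoeff_EX_inl (a : κ) : constantCoeff (EX K X (Sum.inl a)) =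
    algebraMap (MvPowerSeries κ ℂ) K (C (1 - (X.deg (Sum.inl a) : ℂ)) * MvPowerSeries.X a) +
      algebraMap (MvPowerSeries κ ℂ) K (C (X.chern (Sum.inl a))) := by
  rw [EX, constantCoeff_psi, ← map_add]
  congr 1
  rw [FanoGW.euler, map_add, map_mul, killCompl_C, killCompl_C]
  congr 2
  exact killCompl_X a

omit [IsFractionRing (MvPowerSeries κ ℂ) K] in
theorem constantCoeff_EX_inr (j : ν) : constantCoeff (EX K X (Sum.inr j)) =
      algebraMap (MvPowerSeries κ ℂ) K (C (X.chern (Sum.inr j))) := by
  rw [EX, constantCoeff_psi]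
  congr 1
  rw [FanoGW.euler, map_add, map_mul, killCompl_C, killCompl_C, killCompl_X_eq_zero, mul_zero,
    zero_add]
  rintro ⟨x, hx⟩
  cases hx

omit [IsFractionRing (MvPowerSeries κ ℂ) K] in
theorem genC_le : genC ((AX K X).map (constantCoeff (σ := ν) (R := K))) (c1v K X _) ≤
    genAlg (AX K X) (constantCoeff (σ := ν) (R := K)) (EX K X) := by
  rw [genC]
  refine Algebra.adjoin_le ?_
  rintro x ((hx | hx) | hx)
  · exact Algebra.subset_adjoin (Or.inl (Or.inl hx))
  · rw [Set.mem_singleton_iff] at hx
    subst hx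
    have h1 : c1v K X ((AX K X).map (constantCoeff (σ := ν) (R := K))) =
        (AX K X).mapHom (constantCoeff (σ := ν) (R := K)) (eul (AX K X) (EX K X)) -
        ∑ a : κ, (algebraMap (MvPowerSeries κ ℂ) K
          (C (1 - (X.deg (Sum.inl a) : ℂ)) * MvPowerSeries.X a)) •
          ((AX K X).map (constantCoeff (σ := ν) (R := K))).basis (Sum.inl a) := by
      funext k
      have hsub : ∀ (x y : ((AX K X).map (constantCoeff (σ := ν) (R := K))).Carrier),
          (x - y) k = x k - y k := fun _ _ => rfl
      have hsum : ∀ (s : Finset κ)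
          (f : κ → ((AX K X).map (constantCoeff (σ := ν) (R := K))).Carrier),
          (∑ a ∈ s, f a) k = ∑ a ∈ s, f a k := by
        intro s f
        induction s using Finset.induction_on with
        | empty => rfl
        | insert a s ha ih =>
          rw [Finset.sum_insert ha, Finset.sum_insert ha, AlgStr.add_apply, ih]
      rw [hsub, hsum, AlgStr.mapHom_apply]
      rcases k with k | k
      · rw [Finset.sum_eq_single k]
        · rw [AlgStr.smul_apply, AlgStr.basis_apply, if_pos rfl, mul_one]
          show _ = constantCoeff (EX K X (Sum.inl k)) - _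
          rw [constantCoeff_EX_inl, add_sub_cancel_left]
          rfl
        · intro a _ ha
          rw [AlgStr.smul_apply, AlgStr.basis_apply, if_neg (fun h => ha (Sum.inl_injective h)),
            mul_zero]
        · intro h
          exact absurd (Finset.mem_univ _) h
      · rw [Finset.sum_eq_zero, sub_zero]
        · show _ = constantCoeff (EX K X (Sum.inr k))
          rw [constantCoeff_EX_inr]
          rfl
        · intro a _
          rw [AlgStr.smul_apply, AlgStr.basis_apply, if_neg (by simp), mul_zero]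
    rw [h1]
    refine Subalgebra.sub_mem _ ?_ (Subalgebra.sum_mem _ fun a _ => Subalgebra.smul_mem _ ?_ _)
    · exact Algebra.subset_adjoin (Or.inl (Or.inr rfl))
    · exact Algebra.subset_adjoin (Or.inl (Or.inl ⟨a, rfl⟩))
  · exact Algebra.subset_adjoin (Or.inr ⟨_, hx, minpoly.aeval _ _⟩)

/-- **Lifting of nilpotents.** -/
theorem nilpotent_lift [CharZero K] {B : AlgStr K (κ ⊕ ν)} (hB : BX K X = B) {e : B.Carrier}
    (he : e * e = e) (hgen : ∀ x : B.Carrier, ∃ c ∈ genC B (c1v K X B), e * x = e * c)
    {x : B.Carrier} (hx : IsNilpotent x) (hex : e * x = x) :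
    ∃ g : (AX K X).Carrier, IsNilpotent g ∧ ∀ k, constantCoeff (g k) = x k := by
  rw [← AX_map] at hB
  subst hB
  obtain ⟨g, hg1, hg2⟩ := nilpotent_lift_abs (DD K) (AX K X) (EX K X) (pX K X) (DD_inr K)
    (DD_inl_od K) (hpot K X) (heul K X) he (fun x => by
      obtain ⟨c, hc, hxc⟩ := hgen x
      exact ⟨c, genC_le K X hc, hxc⟩) hx hex
  exact ⟨g, hg1, fun k => congrFun hg2 k⟩

instance instDomK' {ν K : Type} [Field K] : IsDomain (MvPowerSeries ν K) :=
  NoZeroDivisors.to_isDomain _

instance instCharZeroK' {ν K : Type} [Field K] [CharZero K] : CharZero (MvPowerSeries ν K) :=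
  charZero_of_injective_algebraMap (algebraMap K (MvPowerSeries ν K)).injective

theorem isReduced_AX [CharZero K] (h : X.QH.GenericallySemisimple) :
    IsReduced (AX K X).Carrier := by
  rw [AlgStr.genericallySemisimple_iff] at h
  apply (AX K X).isReduced_of_disc_ne_zero
  rw [AX_disc]
  exact fun h0 => h ((map_eq_zero_iff _ (psi_injective K)).1 h0)

/-- **Block theorem.** -/
theorem block [CharZero K] {B : AlgStr K (κ ⊕ ν)} (hB : BX K X = B) {e : B.Carrier}
    (he : e * e = e) (hgen : ∀ x : B.Carrier, ∃ c ∈ genC B (c1v K X B), e * x = e * c)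
    (hss : X.QH.GenericallySemisimple) {x : B.Carrier} (hx : IsNilpotent x) : e * x = 0 := by
  have hred := isReduced_AX K X hss
  obtain ⟨g, hg, hgx⟩ := nilpotent_lift K X hB he hgen (x := e * x)
    ((Commute.all e x).isNilpotent_mul_left hx) (by rw [← mul_assoc, he])
  have hg0 : g = 0 := hg.eq_zero
  funext k
  rw [← hgx, hg0]
  exact map_zero _

end Pool.Agent.Helper5.DubGen.G
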