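import Mathlib

/-!
# Regrouping variables of power series; extending derivations to fraction fields
-/

open scoped BigOperators
open Finset MvPowerSeries

namespace Pool.Agent.Helper5.DubGen.G

section split

variable {κ ν : Type} {F : Type} [CommRing F]

/-- regroup a power series in the variables `κ ⊕ ν` as a power series in `ν` over power series
in `κ`, underlying function -/
def splitFun (f : MvPowerSeries (κ ⊕ ν) F) : MvPowerSeries ν (MvPowerSeries κ F) :=
  fun n m => f (Finsupp.sumElim m n)

theorem coeff_splitFun (f : MvPowerSeries (κ ⊕ ν) F) (m : κ →₀ ℕ) (n : ν →₀ ℕ) :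
    coeff m (coeff n (splitFun f)) = coeff (Finsupp.sumElim m n) f := rfl

theorem sumElim_add (m m' : κ →₀ ℕ) (n n' : ν →₀ ℕ) :
    Finsupp.sumElim (m + m') (n + n') = Finsupp.sumElim m n + Finsupp.sumElim m' n' := by
  ext i
  rcases i with i | i <;> simp

theorem sumElim_ext {m m' : κ →₀ ℕ} {n n' : ν →₀ ℕ}
    (h : Finsupp.sumElim m n = Finsupp.sumElim m' n') : m = m' ∧ n = n' := by
  constructor
  · ext i
    have := DFunLike.congr_fun h (Sum.inl i)
    simpa using this
  · ext i
    have := DFunLike.congr_fun h (Sum.inr i)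
    simpa using this

theorem exists_sumElim (p : (κ ⊕ ν) →₀ ℕ) : ∃ m n, p = Finsupp.sumElim m n :=
  ⟨p.comapDomain Sum.inl Sum.inl_injective.injOn, p.comapDomain Sum.inr Sum.inr_injective.injOn, by
    ext i
    rcases i with i | i <;> simp⟩

theorem splitFun_mul (f g : MvPowerSeries (κ ⊕ ν) F) :
    splitFun (f * g) = splitFun f * splitFun g := by
  classical
  ext n m
  rw [coeff_splitFun, coeff_mul, coeff_mul, map_sum]
  simp_rw [coeff_mul, coeff_splitFun]
  rw [← Finset.sum_product']
  symm
  refine Finset.sum_bij (fun q _ => (Finsupp.sumElim q.2.1 q.1.1, Finsupp.sumElim q.2.2 q.1.2))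
    ?_ ?_ ?_ ?_
  · rintro ⟨⟨n1, n2⟩, ⟨m1, m2⟩⟩ hq
    rw [Finset.mem_product, Finset.HasAntidiagonal.mem_antidiagonal,
      Finset.HasAntidiagonal.mem_antidiagonal] at hq
    rw [Finset.HasAntidiagonal.mem_antidiagonal]
    show Finsupp.sumElim m1 n1 + Finsupp.sumElim m2 n2 = _
    rw [← sumElim_add]
    simp only at hq
    rw [hq.1, hq.2]
  · rintro ⟨⟨n1, n2⟩, ⟨m1, m2⟩⟩ _ ⟨⟨n1', n2'⟩, ⟨m1', m2'⟩⟩ _ h
    simp only [Prod.mk.injEq] at h
    obtain ⟨h1, h2⟩ := h
    obtain ⟨rfl, rfl⟩ := sumElim_ext h1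
    obtain ⟨rfl, rfl⟩ := sumElim_ext h2
    rfl
  · rintro ⟨p1, p2⟩ hp
    rw [Finset.HasAntidiagonal.mem_antidiagonal] at hp
    obtain ⟨m1, n1, rfl⟩ := exists_sumElim p1
    obtain ⟨m2, n2, rfl⟩ := exists_sumElim p2
    simp only at hp
    rw [← sumElim_add] at hp
    obtain ⟨hm, hn⟩ := sumElim_ext hp
    refine ⟨⟨⟨n1, n2⟩, ⟨m1, m2⟩⟩, ?_, rfl⟩
    rw [Finset.mem_product, Finset.HasAntidiagonal.mem_antidiagonal,
      Finset.HasAntidiagonal.mem_antidiagonal]
    exact ⟨hn, hm⟩
  · rintro ⟨⟨n1, n2⟩, ⟨m1, m2⟩⟩ _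
    rfl

/-- regroup a power series in the variables `κ ⊕ ν` as a power series in `ν` over power series
in `κ` -/
noncomputable def split : MvPowerSeries (κ ⊕ ν) F →+* MvPowerSeries ν (MvPowerSeries κ F) where
  toFun := splitFun
  map_one' := by
    classical
    ext n m
    rw [coeff_splitFun, coeff_one, coeff_one]
    by_cases hn : n = 0
    · subst hn
      rw [if_pos rfl, coeff_one]
      by_cases hm : m = 0
      · subst hm
        rw [if_pos rfl, if_pos]
        ext i
        rcases i with i | i <;> simp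
      · rw [if_neg hm, if_neg]
        intro h
        apply hm
        have h0 : (0 : (κ ⊕ ν) →₀ ℕ) = Finsupp.sumElim 0 0 := by
          ext i
          rcases i with i | i <;> simp
        rw [h0] at h
        exact (sumElim_ext h).1
    · rw [if_neg hn, if_neg, map_zero]
      intro h
      apply hn
      have h0 : (0 : (κ ⊕ ν) →₀ ℕ) = Finsupp.sumElim 0 0 := by
        ext i
        rcases i with i | i <;> simp
      rw [h0] at h
      exact (sumElim_ext h).2
  map_zero' := rfl
  map_add' _ _ := rfl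
  map_mul' := splitFun_mul

theorem coeff_split (f : MvPowerSeries (κ ⊕ ν) F) (m : κ →₀ ℕ) (n : ν →₀ ℕ) :
    coeff m (coeff n (split f)) = coeff (Finsupp.sumElim m n) f := rfl

theorem split_injective : Function.Injective (split : MvPowerSeries (κ ⊕ ν) F →+* _) := by
  intro f g h
  ext p
  obtain ⟨m, n, rfl⟩ := exists_sumElim p
  rw [← coeff_split, h, coeff_split]

theorem split_pderiv_inr (j : ν) (f : MvPowerSeries (κ ⊕ ν) F) :
    split (pderiv F (Sum.inr j) f) = pderiv (MvPowerSeries κ F) j (split f) := by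
  classical
  ext n m
  rw [coeff_split, coeff_pderiv, coeff_pderiv]
  have h1 : Finsupp.sumElim m n + Finsupp.single (Sum.inr j) 1 =
      Finsupp.sumElim m (n + Finsupp.single j 1) := by
    ext i
    rcases i with i | i
    · simp
    · by_cases h : i = j
      · subst h; simp
      · simp [Ne.symm h]
  have h2 : ((n j : MvPowerSeries κ F) + 1) = C ((n j : F) + 1) := by simp
  rw [h1, h2, mul_comm (coeff _ (split f)), coeff_C_mul, coeff_split, Finsupp.sumElim_inr,
    mul_comm]

theorem coeff_split_pderiv_inl (a : κ) (f : MvPowerSeries (κ ⊕ ν) F) (n : ν →₀ ℕ) :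
    coeff n (split (pderiv F (Sum.inl a) f)) = pderiv F a (coeff n (split f)) := by
  classical
  ext m
  rw [coeff_split, coeff_pderiv, coeff_pderiv, coeff_split]
  have h1 : Finsupp.sumElim m n + Finsupp.single (Sum.inl a) 1 =
      Finsupp.sumElim (m + Finsupp.single a 1) n := by
    ext i
    rcases i with i | i
    · by_cases h : i = a
      · subst h; simp
      · simp [Ne.symm h]
    · simp
  rw [h1, Finsupp.sumElim_inl]

theorem constantCoeff_split (f : MvPowerSeries (κ ⊕ ν) F) :
    constantCoeff (split f) = killCompl (R := F) (Function.Embedding.inl : κ ↪ κ ⊕ ν) f := by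
  classical
  rw [← coeff_zero_eq_constantCoeff_apply]
  ext m
  rw [coeff_split, coeff_killCompl]
  congr 2
  ext i
  rcases i with i | i
  · rw [Finsupp.sumElim_inl]
    exact (Finsupp.embDomain_apply_self _ _ _).symm
  · rw [Finsupp.sumElim_inr, Finsupp.embDomain_of_notMem_range]
    · rfl
    · rintro ⟨x, hx⟩
      cases hx

end split

end Pool.Agent.Helper5.DubGen.G
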