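import Pool.Agent.Helper5.DubGen.GLift
import Pool.Agent.Helper5.DubGen.GSplit

/-!
# Derivations of fraction fields and of power series rings
-/

open scoped BigOperators
open Finset MvPowerSeries

namespace Pool.Agent.Helper5.DubGen.G

section frac

variable {S : Type} [CommRing S] {K : Type} [Field K] [Algebra S K] [IsFractionRing S K]
  (d : Dr S)

variable (K) in
/-- `r ↦ r + ε d r` -/
noncomputable def dual : S →+* TrivSqZeroExt K K where
  toFun r := (algebraMap S K r, algebraMap S K (d r))
  map_one' := by
    refine TrivSqZeroExt.ext ?_ ?_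
    · show algebraMap S K 1 = 1
      exact map_one _
    · show algebraMap S K (d 1) = 0
      rw [Dr.map_one, map_zero]
  map_zero' := by
    refine TrivSqZeroExt.ext ?_ ?_
    · show algebraMap S K 0 = 0
      exact map_zero _
    · show algebraMap S K (d 0) = 0
      rw [Dr.map_zero, map_zero]
  map_add' x y := by
    refine TrivSqZeroExt.ext ?_ ?_
    · show algebraMap S K (x + y) = _
      exact map_add _ _ _
    · show algebraMap S K (d (x + y)) = _
      rw [Dr.map_add, map_add]
      rfl
  map_mul' x y := by
    refine TrivSqZeroExt.ext ?_ ?_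
    · show algebraMap S K (x * y) = _
      exact map_mul _ _ _
    · rw [TrivSqZeroExt.snd_mul]
      show algebraMap S K (d (x * y)) = algebraMap S K x •
        algebraMap S K (d y) + MulOpposite.op (algebraMap S K y) •
          algebraMap S K (d x)
      rw [Dr.leibniz, map_add, map_mul, map_mul, op_smul_eq_smul, smul_eq_mul, smul_eq_mul]

variable (K) in
/-- the lift of `dual` to the fraction field -/
noncomputable def dualK : K →+* TrivSqZeroExt K K :=
  IsLocalization.lift (M := nonZeroDivisors S) (g := dual K d) (by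
    intro y
    rw [TrivSqZeroExt.isUnit_iff_isUnit_fst]
    show IsUnit (algebraMap S K y)
    exact IsLocalization.map_units K y)

theorem dualK_algebraMap (r : S) : dualK K d (algebraMap S K r) = dual K d r :=
  IsLocalization.lift_eq _ _

theorem fst_dualK (x : K) : (dualK K d x).fst = x := by
  have h : ((TrivSqZeroExt.fstHom K K K).toRingHom.comp (dualK K d)) = RingHom.id _ := by
    refine IsLocalization.ringHom_ext (nonZeroDivisors S) ?_
    ext r
    rw [RingHom.comp_apply, RingHom.comp_apply, dualK_algebraMap]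
    rfl
  exact DFunLike.congr_fun h x

variable (K) in
/-- extension of a derivation to the fraction field -/
noncomputable def fracDr : Dr K where
  f x := (dualK K d x).snd
  map_add' x y := by rw [map_add, TrivSqZeroExt.snd_add]
  leibniz' x y := by
    rw [map_mul, TrivSqZeroExt.snd_mul, fst_dualK, fst_dualK, op_smul_eq_smul, smul_eq_mul,
      smul_eq_mul]

theorem fracDr_algebraMap (r : S) : fracDr K d (algebraMap S K r) = algebraMap S K (d r) := by
  show (dualK K d (algebraMap S K r)).snd = _
  rw [dualK_algebraMap]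
  rfl

end frac

section coeffwise

variable {F : Type} [CommRing F] {ν : Type}

/-- coefficientwise application -/
noncomputable def coeffFun (d : Dr F) (g : MvPowerSeries ν F) : MvPowerSeries ν F :=
  fun n => d (coeff n g)

theorem coeff_coeffFun (d : Dr F) (g : MvPowerSeries ν F) (n : ν →₀ ℕ) :
    coeff n (coeffFun d g) = d (coeff n g) := rfl

/-- coefficientwise derivation of power series -/
noncomputable def coeffDr (d : Dr F) : Dr (MvPowerSeries ν F) where
  f g := coeffFun d g
  map_add' x y := by
    ext1 n
    rw [map_add, coeff_coeffFun, coeff_coeffFun, coeff_coeffFun, map_add, Dr.map_add]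
  leibniz' x y := by
    classical
    have hs : ∀ (s : Finset ((ν →₀ ℕ) × (ν →₀ ℕ))) (g : (ν →₀ ℕ) × (ν →₀ ℕ) → F),
        d (∑ q ∈ s, g q) = ∑ q ∈ s, d (g q) := by
      intro s g
      induction s using Finset.induction_on with
      | empty => rw [Finset.sum_empty, Finset.sum_empty, Dr.map_zero]
      | insert a s ha ih => rw [Finset.sum_insert ha, Finset.sum_insert ha, Dr.map_add, ih]
    have key : coeffFun d (x * y) = x * coeffFun d y + coeffFun d x * y := by
      ext1 n
      rw [coeff_coeffFun, map_add, coeff_mul, coeff_mul, coeff_mul, hs,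
        ← Finset.sum_add_distrib]
      refine Finset.sum_congr rfl fun q _ => ?_
      rw [Dr.leibniz, coeff_coeffFun, coeff_coeffFun]
      ring
    rw [key, mul_comm _ y]

theorem coeff_coeffDr (d : Dr F) (g : MvPowerSeries ν F) (n : ν →₀ ℕ) :
    coeff n (coeffDr d g) = d (coeff n g) := rfl

/-- partial derivatives -/
noncomputable def pdDr (F : Type) [CommRing F] {ν : Type} (j : ν) : Dr (MvPowerSeries ν F) where
  f g := pderiv F j g
  map_add' x y := map_add _ _ _
  leibniz' x y := by rw [Derivation.leibniz, smul_eq_mul, smul_eq_mul]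

theorem pdDr_apply (j : ν) (g : MvPowerSeries ν F) : pdDr F j g = pderiv F j g := rfl

end coeffwise

section base

variable {κ ν : Type} (K : Type) [Field K] [Algebra (MvPowerSeries κ ℂ) K]
  [IsFractionRing (MvPowerSeries κ ℂ) K]

/-- base change from `ℂ[[t_κ, t_ν]]` to `K[[t_ν]]` -/
noncomputable def psi : MvPowerSeries (κ ⊕ ν) ℂ →+* MvPowerSeries ν K :=
  (MvPowerSeries.map (algebraMap (MvPowerSeries κ ℂ) K)).comp split

omit [IsFractionRing (MvPowerSeries κ ℂ) K] in
theorem coeff_psi (f : MvPowerSeries (κ ⊕ ν) ℂ) (n : ν →₀ ℕ) :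
    coeff n (psi K f) = algebraMap (MvPowerSeries κ ℂ) K (coeff n (split f)) := by
  rw [psi, RingHom.comp_apply, coeff_map]

theorem psi_injective : Function.Injective (psi K : MvPowerSeries (κ ⊕ ν) ℂ →+* _) := by
  intro f g h
  apply split_injective
  ext1 n
  have h1 := congrArg (coeff n) h
  rw [coeff_psi, coeff_psi] at h1
  exact IsFractionRing.injective (MvPowerSeries κ ℂ) K h1

omit [IsFractionRing (MvPowerSeries κ ℂ) K] in
theorem constantCoeff_psi (f : MvPowerSeries (κ ⊕ ν) ℂ) : constantCoeff (psi K f) =
    algebraMap (MvPowerSeries κ ℂ) K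
      (killCompl (R := ℂ) (Function.Embedding.inl : κ ↪ κ ⊕ ν) f) := by
  rw [← constantCoeff_split, ← coeff_zero_eq_constantCoeff_apply, coeff_psi,
    coeff_zero_eq_constantCoeff_apply]

/-- the derivations of `K[[t_ν]]` -/
noncomputable def DD : κ ⊕ ν → Dr (MvPowerSeries ν K)
  | Sum.inl a => coeffDr (fracDr K (pdDr ℂ a))
  | Sum.inr j => pdDr K j

theorem DD_psi (i : κ ⊕ ν) (f : MvPowerSeries (κ ⊕ ν) ℂ) :
    DD K i (psi K f) = psi K (pderiv ℂ i f) := by
  rcases i with a | j
  · ext1 n
    show coeff n (coeffDr (fracDr K (pdDr ℂ a)) (psi K f)) = _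
    rw [coeff_coeffDr, coeff_psi, coeff_psi, fracDr_algebraMap, coeff_split_pderiv_inl]
    rfl
  · ext1 n
    show coeff n (pderiv K j (psi K f)) = _
    rw [coeff_pderiv, coeff_psi, coeff_psi, split_pderiv_inr, coeff_pderiv, map_mul, map_add,
      map_one, map_natCast]

theorem DD_inr (j : ν) (f : MvPowerSeries ν K) :
    DD (κ := κ) K (Sum.inr j) f = pderiv K j f := rfl

theorem DD_inl_od (a : κ) (k : ℕ) (f : MvPowerSeries ν K) (hf : Od k f) :
    Od k (DD K (Sum.inl a) f) := by
  intro m hm
  show coeff m (coeffDr (fracDr K (pdDr ℂ a)) f) = 0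
  rw [coeff_coeffDr, hf m hm, Dr.map_zero]

include κ in
omit [IsFractionRing (MvPowerSeries κ ℂ) K] in
theorem charZero_K [FaithfulSMul (MvPowerSeries κ ℂ) K] : CharZero K := by
  have : CharZero (MvPowerSeries κ ℂ) := inferInstance
  exact charZero_of_injective_algebraMap
    (FaithfulSMul.algebraMap_injective (MvPowerSeries κ ℂ) K)

end base

end Pool.Agent.Helper5.DubGen.G
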