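import Pool.Agent.Helper5.DubGen.GMat

/-!
# Generation at the origin implies generation at the generic point
-/

open scoped BigOperators
open Finset MvPowerSeries

namespace Pool.Agent.Helper5.DubGen.G

open Pool.Agent.Helper18.Dub

theorem separable_of_idem {F : Type} [Field F] {B : Type} [CommRing B] [Algebra F B]
    [FiniteDimensional F B] {x : B} (hx : x * x = x) : (minpoly F x).Separable := by
  have h1 : (Polynomial.X ^ 2 - Polynomial.X : Polynomial F).Separable := by
    refine ⟨-4, 2 * Polynomial.X - 1, ?_⟩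
    have h2 : Polynomial.derivative (Polynomial.X ^ 2 - Polynomial.X : Polynomial F) =
        2 * Polynomial.X - 1 := by
      rw [Polynomial.derivative_sub, Polynomial.derivative_X, Polynomial.derivative_X_pow]
      norm_num
      rfl
    rw [h2]
    ring
  refine h1.of_dvd (minpoly.dvd F x ?_)
  rw [map_sub, map_pow, Polynomial.aeval_X, pow_two, hx, sub_self]

/-- a coordinate vector as an element of the algebra -/
def vecOf {R : Type} [CommRing R] {σ : Type} [Fintype σ] [DecidableEq σ] (B : AlgStr R σ)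
    (v : σ → R) : B.Carrier := v

theorem vecOf_apply {R : Type} [CommRing R] {σ : Type} [Fintype σ] [DecidableEq σ]
    (B : AlgStr R σ) (v : σ → R) (k : σ) : vecOf B v k = v k := rfl

section

variable {κ ν : Type} [Fintype κ] [DecidableEq κ] [Fintype ν] [DecidableEq ν]
  (X : FanoGW (κ ⊕ ν))

/-- the generators over `ℂ[[t_κ]]` -/
noncomputable def genR : Subalgebra (MvPowerSeries κ ℂ) X.QHres.Carrier :=
  Algebra.adjoin (MvPowerSeries κ ℂ) ((Set.range fun a : κ => X.QHres.basis (Sum.inl a)) ∪
    {vecOf X.QHres fun k => C (X.chern k)} ∪ {x | x * x = x})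

theorem exists_lift_small {x : (X.QHres.map (constantCoeff (σ := κ) (R := ℂ))).Carrier}
    (hx : x ∈ Algebra.adjoin ℂ ((Set.range fun a : κ =>
      (X.QHres.map (constantCoeff (σ := κ) (R := ℂ))).basis (Sum.inl a)) ∪
      {vecOf (X.QHres.map (constantCoeff (σ := κ) (R := ℂ))) fun k => X.chern k} ∪
      {x | x * x = x})) :
    ∃ y ∈ genR X, X.QHres.mapHom (constantCoeff (σ := κ) (R := ℂ)) y = x := by
  induction hx using Algebra.adjoin_induction with
  | mem x hx =>
    rcases hx with (⟨a, rfl⟩ | hx) | hx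
    · refine ⟨X.QHres.basis (Sum.inl a), Algebra.subset_adjoin (Or.inl (Or.inl ⟨a, rfl⟩)), ?_⟩
      funext k
      rw [AlgStr.mapHom_apply, AlgStr.basis_apply]
      show _ = (X.QHres.map (constantCoeff (σ := κ) (R := ℂ))).basis (Sum.inl a) k
      rw [AlgStr.basis_apply]
      split_ifs <;> simp
    · rw [Set.mem_singleton_iff] at hx
      refine ⟨_, Algebra.subset_adjoin (Or.inl (Or.inr rfl)), ?_⟩
      rw [hx]
      funext k
      rw [AlgStr.mapHom_apply]
      exact constantCoeff_C _
    · obtain ⟨e, he1, he2⟩ := AlgStr.exists_idem_lift (A := X.QHres) x hx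
      exact ⟨e, Algebra.subset_adjoin (Or.inr he1), he2⟩
  | algebraMap r =>
    refine ⟨algebraMap _ _ (C r), Subalgebra.algebraMap_mem _ _, ?_⟩
    rw [Algebra.algebraMap_eq_smul_one, Algebra.algebraMap_eq_smul_one]
    funext k
    rw [AlgStr.mapHom_apply, AlgStr.smul_apply, map_mul, constantCoeff_C, AlgStr.smul_apply]
    congr 1
    have h1 := congrFun (map_one (X.QHres.mapHom (constantCoeff (σ := κ) (R := ℂ)))) k
    rw [AlgStr.mapHom_apply] at h1
    exact h1
  | add x y _ _ hx hy =>
    obtain ⟨x', hx', rfl⟩ := hx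
    obtain ⟨y', hy', rfl⟩ := hy
    exact ⟨x' + y', Subalgebra.add_mem _ hx' hy', map_add _ _ _⟩
  | mul x y _ _ hx hy =>
    obtain ⟨x', hx', rfl⟩ := hx
    obtain ⟨y', hy', rfl⟩ := hy
    exact ⟨x' * y', Subalgebra.mul_mem _ hx' hy', map_mul _ _ _⟩

theorem genR_eq_top {B : AlgStr ℂ (κ ⊕ ν)} (hB : X.smallQH = B)
    (h : Algebra.adjoin ℂ ((Set.range fun a : κ => B.basis (Sum.inl a)) ∪
      {vecOf B fun k => X.chern k} ∪ {x | x * x = x}) = ⊤) : genR X = ⊤ := by
  have hB2 : X.QHres.map (constantCoeff (σ := κ) (R := ℂ)) = B := by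
    rw [FanoGW.QHres_map_constantCoeff X, ← hB]
    rfl
  subst hB2
  have hle : (⊤ : Submodule (MvPowerSeries κ ℂ) X.QHres.Carrier) ≤
      Subalgebra.toSubmodule (genR X) ⊔ (IsLocalRing.maximalIdeal (MvPowerSeries κ ℂ)) •
        (⊤ : Submodule (MvPowerSeries κ ℂ) X.QHres.Carrier) := by
    intro x _
    obtain ⟨y, hy, hyx⟩ := exists_lift_small X
      (x := X.QHres.mapHom (constantCoeff (σ := κ) (R := ℂ)) x) (by rw [h]; trivial)
    have h1 : x = y + (x - y) := by ring
    rw [h1]
    refine Submodule.add_mem_sup hy ?_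
    rw [← expand X.QHres (x - y)]
    refine Submodule.sum_mem _ fun c _ => Submodule.smul_mem_smul ?_ trivial
    refine mem_maximalIdeal_of_map (constantCoeff (σ := κ) (R := ℂ)) ?_
    have h2 : X.QHres.mapHom (constantCoeff (σ := κ) (R := ℂ)) (x - y) = 0 := by
      rw [map_sub, hyx, sub_self]
    have h3 := congrFun h2 c
    rw [AlgStr.mapHom_apply] at h3
    exact h3
  have h4 := Submodule.le_of_le_smul_of_le_jacobson_bot (Module.Finite.fg_top)
    (IsLocalRing.maximalIdeal_le_jacobson _) hle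
  rw [eq_top_iff]
  intro x _
  exact h4 (Submodule.mem_top (x := x))

variable (K : Type) [Field K] [Algebra (MvPowerSeries κ ℂ) K]

theorem map_genR {x : X.QHres.Carrier} (hx : x ∈ genR X) :
    X.QHres.mapHom (algebraMap (MvPowerSeries κ ℂ) K) x ∈
      genC (X.QHres.map (algebraMap (MvPowerSeries κ ℂ) K))
        (c1v K X (X.QHres.map (algebraMap (MvPowerSeries κ ℂ) K))) := by
  induction hx using Algebra.adjoin_induction with
  | mem x hx =>
    rcases hx with (⟨a, rfl⟩ | hx) | hx
    · refine Algebra.subset_adjoin (Or.inl (Or.inl ⟨a, ?_⟩))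
      funext k
      show (X.QHres.map (algebraMap (MvPowerSeries κ ℂ) K)).basis (Sum.inl a) k =
        X.QHres.mapHom (algebraMap (MvPowerSeries κ ℂ) K) (X.QHres.basis (Sum.inl a)) k
      rw [AlgStr.mapHom_apply, AlgStr.basis_apply, AlgStr.basis_apply]
      split_ifs <;> simp
    · rw [Set.mem_singleton_iff] at hx
      rw [hx]
      exact Algebra.subset_adjoin (Or.inl (Or.inr rfl))
    · refine Algebra.subset_adjoin (Or.inr (separable_of_idem ?_))
      have hx' : x * x = x := hx
      rw [← map_mul, hx']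
  | algebraMap r =>
    have h1 : X.QHres.mapHom (algebraMap (MvPowerSeries κ ℂ) K)
        (algebraMap (MvPowerSeries κ ℂ) X.QHres.Carrier r) =
        algebraMap K (X.QHres.map (algebraMap (MvPowerSeries κ ℂ) K)).Carrier
          (algebraMap (MvPowerSeries κ ℂ) K r) := by
      rw [Algebra.algebraMap_eq_smul_one, Algebra.algebraMap_eq_smul_one, mapHom_smul', map_one]
    rw [h1]
    exact Subalgebra.algebraMap_mem _ _
  | add x y _ _ hx hy => rw [map_add]; exact Subalgebra.add_mem _ hx hy
  | mul x y _ _ hx hy => rw [map_mul]; exact Subalgebra.mul_mem _ hx hy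

theorem genC_eq_top (h : genR X = ⊤) :
    genC (BX K X) (c1v K X (BX K X)) = ⊤ := by
  show genC (X.QHres.map (algebraMap (MvPowerSeries κ ℂ) K))
    (c1v K X (X.QHres.map (algebraMap (MvPowerSeries κ ℂ) K))) = ⊤
  rw [eq_top_iff]
  intro x _
  rw [← expand (X.QHres.map (algebraMap (MvPowerSeries κ ℂ) K)) x]
  refine Subalgebra.sum_mem _ fun i _ => Subalgebra.smul_mem _ ?_ _
  have h1 := map_genR X K (x := X.QHres.basis i) (by rw [h]; trivial)
  have h2 : X.QHres.mapHom (algebraMap (MvPowerSeries κ ℂ) K) (X.QHres.basis i) =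
      (X.QHres.map (algebraMap (MvPowerSeries κ ℂ) K)).basis i := by
    funext k
    rw [AlgStr.mapHom_apply, AlgStr.basis_apply, AlgStr.basis_apply]
    split_ifs <;> simp
  rwa [h2] at h1

end

end Pool.Agent.Helper5.DubGen.G
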