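import Pool.Agent.Helper5.DubGen.GOrd

/-!
# Nilpotent elements of the special fibre lift to nilpotent elements
-/

open scoped BigOperators
open Finset MvPowerSeries

namespace Pool.Agent.Helper5.DubGen.G

open Pool.Agent.Helper18.Dub

section abstract_

variable {K : Type} [Field K] {ν : Type} {σ : Type} [Fintype σ] [DecidableEq σ]
  {A : AlgStr (MvPowerSeries ν K) σ}

/-- An additive Leibniz operator acting by `k e` on the `k`-th graded piece. -/
structure EType (Θ : A.Carrier →+ A.Carrier) (e : A.Carrier) : Prop where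
  idem : e * e = e
  mul : ∀ x y, Θ (x * y) = Θ x * y + x * Θ y
  gr : ∀ (k : ℕ) (x : A.Carrier), Oc A k x →
    Oc A (k + 1) (Θ x - (k : MvPowerSeries ν K) • (e * x))

namespace EType

variable {Θ : A.Carrier →+ A.Carrier} {e : A.Carrier} (h : EType Θ e)

include h

theorem map_e : Θ e = 0 := by
  have h1 := h.mul e e
  rw [h.idem] at h1
  have h2 : e * Θ e = 0 := by
    have h3 : e * Θ e = e * Θ e + e * Θ e := by
      calc e * Θ e = e * (Θ e * e + e * Θ e) := by rw [← h1]
        _ = (e * e) * Θ e + (e * e) * Θ e := by ring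
        _ = e * Θ e + e * Θ e := by rw [h.idem]
    exact left_eq_add.mp h3
  rw [h2, mul_comm, h2, add_zero] at h1
  exact h1

theorem e_mul {x : A.Carrier} (hx : e * x = x) : e * Θ x = Θ x := by
  have h1 := h.mul e x
  rw [hx, h.map_e, zero_mul, zero_add] at h1
  exact h1.symm

theorem fil {k : ℕ} {x : A.Carrier} (hx : Oc A k x) : Oc A k (Θ x) := by
  have h1 := (h.gr k x hx).mono (Nat.le_succ k)
  have h2 := h1.add ((hx.mul_left e).smul (k : MvPowerSeries ν K))
  rwa [sub_add_cancel] at h2

omit h in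
theorem natCast_eq_C (n : ℕ) : (n : MvPowerSeries ν K) = C (n : K) := by simp

variable [CharZero K]

omit h in
theorem C_inv_mul (n : ℕ) :
    (C (((n + 1 : ℕ) : K)⁻¹) : MvPowerSeries ν K) * ((n + 1 : ℕ) : MvPowerSeries ν K) = 1 := by
  rw [natCast_eq_C, ← map_mul, inv_mul_cancel₀ (Nat.cast_ne_zero.2 (Nat.succ_ne_zero n)), map_one]

omit h in
theorem map_C_inv (n : ℕ) (x : A.Carrier) :
    Θ ((C (((n + 1 : ℕ) : K)⁻¹) : MvPowerSeries ν K) • x) =
      (C (((n + 1 : ℕ) : K)⁻¹) : MvPowerSeries ν K) • Θ x := by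
  have h1 : ((n + 1 : ℕ) : MvPowerSeries ν K) •
      Θ ((C (((n + 1 : ℕ) : K)⁻¹) : MvPowerSeries ν K) • x) = Θ x := by
    rw [Nat.cast_smul_eq_nsmul, ← map_nsmul, ← Nat.cast_smul_eq_nsmul (MvPowerSeries ν K),
      smul_smul, mul_comm, C_inv_mul, one_smul]
  rw [← h1, smul_smul, C_inv_mul, one_smul]

omit h in
/-- the partial products `∏_{1 ≤ k ≤ n} (1 - Θ / k) f` -/
noncomputable def part (Θ : A.Carrier →+ A.Carrier) (f : A.Carrier) : ℕ → A.Carrier
  | 0 => f
  | n + 1 => part Θ f n - (C (((n + 1 : ℕ) : K)⁻¹) : MvPowerSeries ν K) • Θ (part Θ f n)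

omit [CharZero K] in
theorem e_part {f : A.Carrier} (hf : e * f = f) (n : ℕ) : e * part Θ f n = part Θ f n := by
  induction n with
  | zero => exact hf
  | succ n ih => rw [part, mul_sub, mul_smul_comm, h.e_mul ih, ih]

theorem oc_part {f : A.Carrier} (hf : e * f = f) (n : ℕ) : Oc A (n + 1) (Θ (part Θ f n)) := by
  induction n with
  | zero =>
    have := h.gr 0 f (oc_zero f)
    rwa [Nat.cast_zero, zero_smul, sub_zero] at this
  | succ n ih =>
    rw [part, map_sub, map_C_inv]
    have h1 := (h.gr (n + 1) _ ih).smul (-(C (((n + 1 : ℕ) : K)⁻¹) : MvPowerSeries ν K))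
    rw [h.e_mul (h.e_part hf n), smul_sub, smul_smul, neg_mul, C_inv_mul, neg_smul, neg_smul,
      one_smul] at h1
    have h2 : -((C (((n + 1 : ℕ) : K)⁻¹) : MvPowerSeries ν K) • Θ (Θ (part Θ f n))) -
        -(Θ (part Θ f n)) = Θ (part Θ f n) -
          (C (((n + 1 : ℕ) : K)⁻¹) : MvPowerSeries ν K) • Θ (Θ (part Θ f n)) := by abel
    rwa [h2] at h1

/-- every element over `e` can be corrected, modulo the maximal ideal, to an element killed by
the operator -/
theorem exists_const {f : A.Carrier} (hf : e * f = f) :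
    ∃ g : A.Carrier, Oc A 1 (g - f) ∧ Θ g = 0 ∧ e * g = g := by
  have hs : ∀ n, Oc A (n + 1) (part Θ f (n + 1) - part Θ f n) := by
    intro n
    have h1 := (h.oc_part hf n).smul (-(C (((n + 1 : ℕ) : K)⁻¹) : MvPowerSeries ν K))
    have h2 : part Θ f (n + 1) - part Θ f n =
        (-(C (((n + 1 : ℕ) : K)⁻¹) : MvPowerSeries ν K)) • Θ (part Θ f n) := by
      rw [part, neg_smul]; abel
    rwa [h2]
  have hl := oc_lim_sub hs
  refine ⟨lim (part Θ f), hl 0, ?_, ?_⟩
  · refine eq_zero_of_oc fun k => ?_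
    have h1 : Θ (lim (part Θ f)) = Θ (lim (part Θ f) - part Θ f k) + Θ (part Θ f k) := by
      rw [← map_add, sub_add_cancel]
    rw [h1]
    exact ((h.fil (hl k)).add (h.oc_part hf k)).mono (Nat.le_succ k)
  · rw [← sub_eq_zero]
    refine eq_zero_of_oc fun k => ?_
    have h1 : e * lim (part Θ f) - lim (part Θ f) =
        (e - 1) * (lim (part Θ f) - part Θ f k) + (e * part Θ f k - part Θ f k) := by ring
    rw [h1, h.e_part hf k, sub_self, add_zero]
    exact ((hl k).mul_left _).mono (Nat.le_succ k)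

theorem eq_zero_of_const {x : A.Carrier} (hx : Oc A 1 x) (h0 : Θ x = 0) (he : e * x = x) :
    x = 0 := by
  have h1 : ∀ k, Oc A (k + 1) x := by
    intro k
    induction k with
    | zero => exact hx
    | succ k ih =>
      have h2 := (h.gr (k + 1) x ih).smul (-(C (((k + 1 : ℕ) : K)⁻¹) : MvPowerSeries ν K))
      rw [h0, he, zero_sub, smul_neg, smul_smul, neg_mul, C_inv_mul, neg_smul, neg_neg,
        one_smul] at h2
      exact h2
  exact eq_zero_of_oc fun k => (h1 k).mono (Nat.le_succ k)

omit [CharZero K] in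
theorem map_pow {x : A.Carrier} (h0 : Θ x = 0) (n : ℕ) : Θ (x ^ (n + 1)) = 0 := by
  induction n with
  | zero => rw [zero_add, pow_one, h0]
  | succ n ih => rw [pow_succ, h.mul, ih, h0, zero_mul, mul_zero, add_zero]

/-- **Nilpotent elements lift.** -/
theorem exists_nilpotent_lift {x : (A.map (constantCoeff (σ := ν) (R := K))).Carrier}
    (hx : IsNilpotent x) (hex : A.mapHom (constantCoeff (σ := ν) (R := K)) e * x = x) :
    ∃ g : A.Carrier, IsNilpotent g ∧ e * g = g ∧
      A.mapHom (constantCoeff (σ := ν) (R := K)) g = x := by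
  have hf : e * (e * clift x) = e * clift x := by rw [← mul_assoc, h.idem]
  obtain ⟨g, hg1, hg2, hg3⟩ := h.exists_const hf
  have hgx : A.mapHom (constantCoeff (σ := ν) (R := K)) g = x := by
    rw [oc_one_iff, map_sub, map_mul, mapHom_clift, hex, sub_eq_zero] at hg1
    exact hg1
  obtain ⟨n, hn⟩ := hx
  refine ⟨g, ⟨n + 1, ?_⟩, hg3, hgx⟩
  refine h.eq_zero_of_const ?_ (h.map_pow hg2 n) ?_
  · rw [oc_one_iff, _root_.map_pow, hgx, pow_succ, hn, zero_mul]
  · rw [pow_succ', ← mul_assoc, hg3]

end EType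

end abstract_

section concrete

variable {K : Type} [Field K] {κ ν : Type} [Fintype κ] [DecidableEq κ] [Fintype ν]
  [DecidableEq ν] (D : κ ⊕ ν → Dr (MvPowerSeries ν K))
  (A : AlgStr (MvPowerSeries ν K) (κ ⊕ ν))

/-- the operator `∑_j t_j Θ_j` -/
noncomputable def Th (v w : ν → κ ⊕ ν → A.Carrier) : A.Carrier →+ A.Carrier where
  toFun x := ∑ j, (X j : MvPowerSeries ν K) • op D A (v j) (w j) x
  map_zero' := by
    refine Finset.sum_eq_zero fun j _ => ?_
    have h := op_smul D A (v j) (w j) 0 0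
    rw [zero_smul, zero_smul, mul_zero, add_zero] at h
    rw [h, smul_zero]
  map_add' x y := by
    rw [← Finset.sum_add_distrib]
    refine Finset.sum_congr rfl fun j _ => ?_
    rw [op_add, smul_add]

theorem eType_Th (hν : ∀ j f, D (Sum.inr j) f = pderiv K j f)
    (hκ : ∀ a k f, Od k f → Od k (D (Sum.inl a) f)) {e : A.Carrier} (he : e * e = e)
    {v w : ν → κ ⊕ ν → A.Carrier} (hc : ∀ j, Compat D A (v j) (w j))
    (hv : ∀ i j : ν, v j (Sum.inr i) = if i = j then e else 0) : EType (Th D A v w) e where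
  idem := he
  mul x y := by
    show ∑ j, (X j : MvPowerSeries ν K) • op D A (v j) (w j) (x * y) =
      (∑ j, (X j : MvPowerSeries ν K) • op D A (v j) (w j) x) * y +
        x * ∑ j, (X j : MvPowerSeries ν K) • op D A (v j) (w j) y
    rw [Finset.sum_mul, Finset.mul_sum, ← Finset.sum_add_distrib]
    refine Finset.sum_congr rfl fun j _ => ?_
    rw [op_mul (hc j), smul_add, smul_mul_assoc, mul_smul_comm]
  gr k x hx := by
    show Oc A (k + 1) (∑ j, (X j : MvPowerSeries ν K) • op D A (v j) (w j) x -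
      (k : MvPowerSeries ν K) • (e * x))
    have h1 : ∀ j, (X j : MvPowerSeries ν K) • op D A (v j) (w j) x =
        e * ((X j : MvPowerSeries ν K) • cd D A (Sum.inr j) x) +
        (X j : MvPowerSeries ν K) • (∑ a : κ, v j (Sum.inl a) * cd D A (Sum.inl a) x +
          ∑ c, x c • w j c) := by
      intro j
      rw [op, Fintype.sum_sum_type]
      have h2 : ∑ i : ν, v j (Sum.inr i) * cd D A (Sum.inr i) x = e * cd D A (Sum.inr j) x := by
        rw [Finset.sum_eq_single j]
        · rw [hv, if_pos rfl]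
        · intro i _ hi
          rw [hv, if_neg hi, zero_mul]
        · intro h'
          exact absurd (Finset.mem_univ _) h'
      rw [h2, mul_smul_comm, ← smul_add]
      congr 1
      abel
    have h3 : ∑ j, (X j : MvPowerSeries ν K) • op D A (v j) (w j) x -
        (k : MvPowerSeries ν K) • (e * x) =
        e * (∑ j, (X j : MvPowerSeries ν K) • cd D A (Sum.inr j) x -
          (k : MvPowerSeries ν K) • x) +
        ∑ j, (X j : MvPowerSeries ν K) • (∑ a : κ, v j (Sum.inl a) * cd D A (Sum.inl a) x +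
          ∑ c, x c • w j c) := by
      rw [Finset.sum_congr rfl fun j _ => h1 j, Finset.sum_add_distrib, mul_sub, Finset.mul_sum,
        mul_smul_comm]
      abel
    rw [h3]
    refine Oc.add ?_ ?_
    · refine Oc.mul_left ?_ e
      intro c
      have h4 : (∑ j, (X j : MvPowerSeries ν K) • cd D A (Sum.inr j) x -
          (k : MvPowerSeries ν K) • x) c = (∑ j, X j * pderiv K j (x c)) -
            (k : MvPowerSeries ν K) * x c := by
        rw [sub_apply, sum_apply, AlgStr.smul_apply]
        congr 1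
        refine Finset.sum_congr rfl fun j _ => ?_
        rw [AlgStr.smul_apply, cd_apply, hν]
      rw [h4]
      exact od_euler (hx c)
    · refine Oc.sum _ _ fun j _ => ?_
      have h5 : Oc A k (∑ a : κ, v j (Sum.inl a) * cd D A (Sum.inl a) x + ∑ c, x c • w j c) := by
        refine Oc.add (Oc.sum _ _ fun a _ => Oc.mul_left ?_ _)
          (Oc.sum _ _ fun c _ => Oc.smul' (hx c) _)
        intro c
        exact hκ a k _ (hx c)
      intro c
      have h6 := (od_X (K := K) j).mul (h5 c)
      rw [add_comm] at h6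
      exact h6

/-- **Lifting of nilpotents**, abstract form. -/
theorem nilpotent_lift_abs [CharZero K] (E p : κ ⊕ ν → MvPowerSeries ν K)
    (hν : ∀ j f, D (Sum.inr j) f = pderiv K j f)
    (hκ : ∀ a k f, Od k f → Od k (D (Sum.inl a) f))
    (hpot : ∀ a b c k, D a (A.m b c k) = D b (A.m a c k))
    (heul : ∀ b c k, ∑ i, E i * D i (A.m b c k) = (p b + p c - p k) * A.m b c k)
    {e : (A.map (constantCoeff (σ := ν) (R := K))).Carrier} (he : e * e = e)
    (hgen : ∀ x : (A.map (constantCoeff (σ := ν) (R := K))).Carrier,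
      ∃ c ∈ genAlg A (constantCoeff (σ := ν) (R := K)) E, e * x = e * c)
    {x : (A.map (constantCoeff (σ := ν) (R := K))).Carrier} (hx : IsNilpotent x)
    (hex : e * x = x) : ∃ g : A.Carrier, IsNilpotent g ∧
      A.mapHom (constantCoeff (σ := ν) (R := K)) g = x := by
  obtain ⟨e', he', he2⟩ := exists_idem_lift e he
  have hπ : Function.Surjective (constantCoeff (σ := ν) (R := K)) := fun r =>
    ⟨C r, constantCoeff_C r⟩
  subst he2
  have h1 : ∀ j : ν, ∃ v w : κ ⊕ ν → A.Carrier, Compat D A v w ∧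
      ∀ i : ν, v (Sum.inr i) = if i = j then e' else 0 := fun j =>
    exists_compat D A (constantCoeff (σ := ν) (R := K)) E p hpot heul hπ he' hgen j
  choose v w hc hv using h1
  have hT : EType (Th D A v w) e' :=
    eType_Th D A hν hκ he' hc (fun i j => hv j i)
  obtain ⟨g, hg1, -, hg3⟩ := hT.exists_nilpotent_lift hx hex
  exact ⟨g, hg1, hg3⟩

end concrete

end Pool.Agent.Helper5.DubGen.G
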