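import Pool.Agent.Helper5.DubGen.GFin
import Pool.Agent.Helper1.DubProd.Srk

/-!
# Rank of the trace form; statements for algebras of matrices
-/

open scoped BigOperators
open Finset MvPowerSeries

namespace Pool.Agent.Helper5.DubGen.G

open Pool.Agent.Helper18.Dub Pool.Agent.Helper1.DubProd

section mat

variable {K : Type} [Field K] {κ ν : Type} [Fintype κ] [DecidableEq κ] [Fintype ν]
  [DecidableEq ν] (B : AlgStr K (κ ⊕ ν))

/-- the algebra of matrices of multiplications -/
noncomputable def MA {σ : Type} [Fintype σ] [DecidableEq σ] (B : AlgStr K σ) :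
    Subalgebra K (Matrix σ σ K) :=
  Algebra.adjoin K (Set.range fun a => B.matOf a)

/-- the subalgebra generated by the classes of `κ`, by `c = ∑ c_i φ_i` and the elements with
separable minimal polynomial -/
noncomputable def genMA (c : κ ⊕ ν → K) : Subalgebra K (Matrix (κ ⊕ ν) (κ ⊕ ν) K) :=
  Algebra.adjoin K ((Set.range fun a : κ => B.matOf (Sum.inl a)) ∪ {∑ i, c i • B.matOf i} ∪
    {M | M ∈ MA B ∧ (minpoly K M).Separable})

theorem range_L : (Algebra.leftMulMatrix B.basis).range = MA B := by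
  rw [MA, ← B.map_adjoin fun a => a, B.adjoin_basis, Algebra.map_top]

theorem L_c (c : B.Carrier) : Algebra.leftMulMatrix B.basis c = ∑ i, c i • B.matOf i := by
  conv_lhs => rw [← expand B c]
  rw [map_sum]
  refine Finset.sum_congr rfl fun i _ => ?_
  rw [map_smul, B.leftMulMatrix_eq_matOf]

theorem genMA_eq (c : B.Carrier) :
    genMA B c = (genC B c).map (Algebra.leftMulMatrix B.basis) := by
  rw [genC, AlgHom.map_adjoin, genMA, Set.image_union, Set.image_union, Set.image_singleton, L_c]
  congr 2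
  · congr 1
    rw [← Set.range_comp]
    congr 1
    funext a
    exact (B.leftMulMatrix_eq_matOf _).symm
  · ext M
    constructor
    · rintro ⟨hM, hsep⟩
      rw [← range_L] at hM
      obtain ⟨x, rfl⟩ := hM
      refine ⟨x, ?_, rfl⟩
      have h := minpoly.algHom_eq (Algebra.leftMulMatrix B.basis)
        (Algebra.leftMulMatrix_injective B.basis) x
      show (minpoly K x).Separable
      rw [← h]
      exact hsep
    · rintro ⟨x, hx, rfl⟩
      refine ⟨by rw [← range_L]; exact ⟨x, rfl⟩, ?_⟩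
      have h := minpoly.algHom_eq (Algebra.leftMulMatrix B.basis)
        (Algebra.leftMulMatrix_injective B.basis) x
      show (minpoly K (Algebra.leftMulMatrix B.basis x)).Separable
      rw [h]
      exact hx

/-- transport of the generation hypothesis -/
theorem gen_of_genMA (c e : B.Carrier)
    (h : ∀ M ∈ MA B, ∃ M' ∈ genMA B c, Algebra.leftMulMatrix B.basis e * M =
      Algebra.leftMulMatrix B.basis e * M') (x : B.Carrier) :
    ∃ y ∈ genC B c, e * x = e * y := by
  obtain ⟨M', hM', h1⟩ := h (Algebra.leftMulMatrix B.basis x)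
    (by rw [← range_L]; exact ⟨x, rfl⟩)
  rw [genMA_eq] at hM'
  obtain ⟨y, hy, rfl⟩ := hM'
  refine ⟨y, hy, ?_⟩
  apply Algebra.leftMulMatrix_injective B.basis
  rw [map_mul, map_mul]
  exact h1

end mat

section X

variable {κ ν : Type} [Fintype κ] [DecidableEq κ] [Fintype ν] [DecidableEq ν]
  (K : Type) [Field K] [Algebra (MvPowerSeries κ ℂ) K] [IsFractionRing (MvPowerSeries κ ℂ) K]
  [CharZero K] (X : FanoGW (κ ⊕ ν))

/-- **Block theorem for matrices.** -/
theorem block_mat (hss : X.QH.GenericallySemisimple) {e : Matrix (κ ⊕ ν) (κ ⊕ ν) K}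
    (he : e ∈ MA (BX K X)) (hee : e * e = e)
    (hgen : ∀ M ∈ MA (BX K X), ∃ M' ∈ genMA (BX K X) (c1v K X (BX K X)), e * M = e * M')
    {M : Matrix (κ ⊕ ν) (κ ⊕ ν) K} (hM : M ∈ MA (BX K X)) (hnil : IsNilpotent M) :
    e * M = 0 := by
  rw [← range_L] at he hM
  obtain ⟨e, rfl⟩ := he
  obtain ⟨x, rfl⟩ := hM
  have hinj := Algebra.leftMulMatrix_injective (BX K X).basis
  have he' : e * e = e := by
    apply hinj
    rw [map_mul]
    exact hee
  have hx : IsNilpotent x := (IsNilpotent.map_iff hinj).1 hnil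
  have h := block K X rfl he' (gen_of_genMA (BX K X) (c1v K X (BX K X)) e hgen) hss hx
  show (Algebra.leftMulMatrix (BX K X).basis) e * (Algebra.leftMulMatrix (BX K X).basis) x = 0
  rw [← map_mul, h, map_zero]

omit [CharZero K] in
theorem srk_AX : srk (AX K X) = srk X.QH :=
  srk_map_of_injective X.QH (psi K) (psi_injective K)

omit [CharZero K] in
theorem srk_BX : srk (BX K X) = srk X.QHres :=
  srk_map_of_injective X.QHres (algebraMap (MvPowerSeries κ ℂ) K)
    (IsFractionRing.injective (MvPowerSeries κ ℂ) K)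

/-- **Quantitative block theorem.** -/
theorem quant {B : AlgStr K (κ ⊕ ν)} (hB : BX K X = B) {e : B.Carrier}
    (he : e * e = e) (hgen : ∀ x : B.Carrier, ∃ c ∈ genC B (c1v K X B), e * x = e * c)
    {k : ℕ} (y : Fin k → B.Carrier) (hy : ∀ i, IsNilpotent (y i)) (hey : ∀ i, e * y i = y i)
    (hli : LinearIndependent K (fun i => (fun a => y i a : κ ⊕ ν → K))) :
    srk X.QH + k ≤ Fintype.card (κ ⊕ ν) := by
  choose g hg1 hg2 using fun i => nilpotent_lift K X hB he hgen (hy i) (hey i)
  let G : Matrix (Fin k) (κ ⊕ ν) (MvPowerSeries ν K) := fun i a => g i a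
  have hG2 : ∀ i, (trm (AX K X)).mulVec (G i) = 0 := fun i =>
    trm_mulVec_of_nilpotent (AX K X) (hg1 i)
  have h1 := grk_add_le (trm (AX K X)) G hG2
  have h2 := grk_map_le G (constantCoeff (σ := ν) (R := K))
  have h3 : G.map (constantCoeff (σ := ν) (R := K)) = Matrix.of fun i a => y i a := by
    ext1 i a
    exact hg2 i a
  have h4 : grk (Matrix.of fun i a => y i a : Matrix (Fin k) (κ ⊕ ν) K) = k := by
    rw [grk_field, Matrix.rank_eq_finrank_span_row]
    exact (finrank_span_eq_card hli).trans (Fintype.card_fin k)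
  rw [h3, h4] at h2
  have h5 : grk (trm (AX K X)) = srk X.QH := srk_AX K X
  omega

theorem srk_eq {B : AlgStr K (κ ⊕ ν)} (hB : BX K X = B)
    (hgen : genC B (c1v K X B) = ⊤) : srk X.QHres = srk X.QH := by
  have hgen' : ∀ x : B.Carrier, ∃ c ∈ genC B (c1v K X B), 1 * x = 1 * c := fun x =>
    ⟨x, by rw [hgen]; trivial, rfl⟩
  rw [← srk_AX K X, ← srk_BX K X, ← AX_map]
  refine srk_eq_of_lift (AX K X) (constantCoeff (σ := ν) (R := K)) ?_
  rw [← AX_map] at hB
  subst hB
  intro x hx
  obtain ⟨g, hg1, hg2⟩ := nilpotent_lift K X (AX_map K X).symm (one_mul 1) hgen' hx (one_mul x)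
  exact ⟨g, hg1, funext hg2⟩

end X

end Pool.Agent.Helper5.DubGen.G
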