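import Pool.Agent.Helper5.DubGen.GDer

/-!
# Derivations with prescribed values on transversal coordinates
-/

open scoped BigOperators
open Finset

namespace Pool.Agent.Helper5.DubGen.G

open Pool.Agent.Helper18.Dub

variable {R : Type} [CommRing R] {κ ν : Type} [Fintype κ] [DecidableEq κ] [Fintype ν]
  [DecidableEq ν] (D : κ ⊕ ν → Dr R) (A : AlgStr R (κ ⊕ ν))
  {K : Type} [Field K] (π : R →+* K) (E p : κ ⊕ ν → R)

/-- the Euler element -/
def eul : A.Carrier := E

/-- The subalgebra of the special fibre generated by the classes of `κ`, the Euler element and all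
elements with separable minimal polynomial. -/
noncomputable def genAlg : Subalgebra K (A.map π).Carrier :=
  Algebra.adjoin K ((Set.range fun a : κ => (A.map π).basis (Sum.inl a)) ∪
    {A.mapHom π (eul A E)} ∪
    {x | ∃ P : Polynomial K, P.Separable ∧ Polynomial.aeval x P = 0})

/-- the generators of the module of values of derivations on transversal coordinates -/
noncomputable def gV : Option ((κ ⊕ ν) × (κ ⊕ ν)) → (κ ⊕ ν) → A.Carrier
  | none => fun i => E i • (1 : A.Carrier)
  | some (a, b) => vT A a b

/-- the values on the basis -/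
noncomputable def gW : Option ((κ ⊕ ν) × (κ ⊕ ν)) → (κ ⊕ ν) → A.Carrier
  | none => fun c => p c • A.basis c
  | some (a, b) => wT D A a b

theorem compat_g (hpot : ∀ a b c k, D a (A.m b c k) = D b (A.m a c k))
    (heul : ∀ b c k, ∑ i, E i * D i (A.m b c k) = (p b + p c - p k) * A.m b c k)
    (t : Option ((κ ⊕ ν) × (κ ⊕ ν))) : Compat D A (gV A E t) (gW D A p t) := by
  rcases t with _ | ⟨a, b⟩
  · exact compat_E D A E p heul
  · exact compat_T D A hpot a b

/-- the module spanned by the values -/
noncomputable def Mg : Submodule A.Carrier (ν → A.Carrier) :=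
  Submodule.span A.Carrier (Set.range fun t => fun j : ν => gV A E t (Sum.inr j))

/-- tuples vanishing on the special fibre -/
def mN : Submodule A.Carrier (ν → A.Carrier) where
  carrier := {x | ∀ j, A.mapHom π (x j) = 0}
  add_mem' := by
    intro x y hx hy j
    rw [Pi.add_apply, map_add, hx j, hy j, add_zero]
  zero_mem' := fun j => by rw [Pi.zero_apply, map_zero]
  smul_mem' := by
    intro c x hx j
    rw [Pi.smul_apply, smul_eq_mul, map_mul, hx j, mul_zero]

/-- `x ↦ (x_j)_{j ∈ ν}` -/
noncomputable def vecL : A.Carrier →ₗ[R] (ν → A.Carrier) where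
  toFun x := fun j => x (Sum.inr j) • (1 : A.Carrier)
  map_add' x y := by
    funext j
    rw [Pi.add_apply, AlgStr.add_apply, add_smul]
  map_smul' r x := by
    funext j
    rw [AlgStr.smul_apply, mul_smul, RingHom.id_apply, Pi.smul_apply]

theorem vecL_apply (x : A.Carrier) (j : ν) : vecL A x j = x (Sum.inr j) • (1 : A.Carrier) := rfl

theorem vecL_leibniz_basis (b c : κ ⊕ ν) : vecL A (A.basis b * A.basis c) -
    (A.basis b • vecL A (A.basis c) + A.basis c • vecL A (A.basis b)) ∈ Mg A E := by
  have h : vecL A (A.basis b * A.basis c) -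
      (A.basis b • vecL A (A.basis c) + A.basis c • vecL A (A.basis b)) =
      - fun j : ν => gV A E (some (b, c)) (Sum.inr j) := by
    funext j
    rw [Pi.neg_apply, Pi.sub_apply, Pi.add_apply, Pi.smul_apply, Pi.smul_apply, vecL_apply,
      vecL_apply, vecL_apply, AlgStr.basis_mul_basis, AlgStr.basis_apply, AlgStr.basis_apply]
    show _ = - vT A b c (Sum.inr j)
    rw [vT]
    have h1 : ∀ (q : Prop) [Decidable q] (x : A.Carrier),
        x • ((if q then (1 : R) else 0) • (1 : A.Carrier)) = if q then x else 0 := by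
      intro q _ x
      split_ifs
      · rw [one_smul, smul_eq_mul, mul_one]
      · rw [zero_smul, smul_zero]
    rw [h1, h1]
    abel
  rw [h]
  exact Submodule.neg_mem _ (Submodule.subset_span ⟨_, rfl⟩)

theorem vecL_leibniz (x y : A.Carrier) : vecL A (x * y) -
    (x • vecL A y + y • vecL A x) ∈ Mg A E := by
  have h1 : ∀ (b : κ ⊕ ν) (y : A.Carrier), vecL A (A.basis b * y) -
      (A.basis b • vecL A y + y • vecL A (A.basis b)) ∈ Mg A E := by
    intro b y
    have h2 : vecL A (A.basis b * y) - (A.basis b • vecL A y + y • vecL A (A.basis b)) =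
        ∑ c, (algebraMap R A.Carrier (y c)) • (vecL A (A.basis b * A.basis c) -
          (A.basis b • vecL A (A.basis c) + A.basis c • vecL A (A.basis b))) := by
      conv_lhs => rw [← expand A y]
      rw [Finset.mul_sum, map_sum, map_sum, Finset.smul_sum, Finset.sum_smul,
        ← Finset.sum_add_distrib, ← Finset.sum_sub_distrib]
      refine Finset.sum_congr rfl fun c _ => ?_
      rw [mul_smul_comm, map_smul, map_smul, algebraMap_smul, smul_sub, smul_add, smul_assoc,
        smul_comm (A.basis b) (y c)]
    rw [h2]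
    exact Submodule.sum_mem _ fun c _ => Submodule.smul_mem _ _ (vecL_leibniz_basis A E b c)
  have h2 : vecL A (x * y) - (x • vecL A y + y • vecL A x) =
      ∑ c, (algebraMap R A.Carrier (x c)) • (vecL A (A.basis c * y) -
        (A.basis c • vecL A y + y • vecL A (A.basis c))) := by
    conv_lhs => rw [← expand A x]
    rw [Finset.sum_mul, map_sum, map_sum, Finset.smul_sum, Finset.sum_smul,
      ← Finset.sum_add_distrib, ← Finset.sum_sub_distrib]
    refine Finset.sum_congr rfl fun c _ => ?_
    rw [smul_mul_assoc, map_smul, map_smul, algebraMap_smul, smul_sub, smul_add, smul_assoc,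
      smul_comm y (x c)]
  rw [h2]
  exact Submodule.sum_mem _ fun c _ => Submodule.smul_mem _ _ (h1 c y)

/-- the module of values, modulo the special fibre -/
noncomputable def Mq : Submodule A.Carrier (ν → A.Carrier) := Mg A E ⊔ mN A π

/-- the universal derivation -/
noncomputable def del : Derivation R A.Carrier ((ν → A.Carrier) ⧸ Mq A π E) :=
  Derivation.mk' (((Mq A π E).mkQ.restrictScalars R) ∘ₗ vecL A) (by
    intro x y
    have h := (Submodule.Quotient.mk_eq_zero (Mq A π E)).2
      ((le_sup_left : Mg A E ≤ Mq A π E) (vecL_leibniz A E x y))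
    rw [Submodule.Quotient.mk_sub, sub_eq_zero] at h
    exact h)

theorem del_apply (x : A.Carrier) :
    del A π E x = Submodule.Quotient.mk (vecL A x) := rfl

theorem del_eq_zero_of_map {x : A.Carrier} (hx : A.mapHom π x = 0) : del A π E x = 0 := by
  rw [del_apply, Submodule.Quotient.mk_eq_zero]
  refine (le_sup_right : mN A π ≤ Mq A π E) ?_
  intro j
  rw [vecL_apply]
  funext c
  have h1 := congrFun hx (Sum.inr j)
  rw [AlgStr.mapHom_apply, AlgStr.zero_apply] at h1
  rw [AlgStr.mapHom_apply, AlgStr.smul_apply, map_mul, h1, zero_mul]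
  rfl

theorem smul_eq_zero_of_map {z : A.Carrier} (hz : A.mapHom π z = 0)
    (q : (ν → A.Carrier) ⧸ Mq A π E) : z • q = 0 := by
  obtain ⟨y, rfl⟩ := Submodule.Quotient.mk_surjective _ q
  rw [← Submodule.Quotient.mk_smul, Submodule.Quotient.mk_eq_zero]
  refine (le_sup_right : mN A π ≤ Mq A π E) ?_
  intro j
  rw [Pi.smul_apply, smul_eq_mul, map_mul, hz, zero_mul]

theorem del_basis_inl (a : κ) : del A π E (A.basis (Sum.inl a)) = 0 := by
  rw [del_apply]
  have : vecL A (A.basis (Sum.inl a)) = 0 := by
    funext j
    rw [vecL_apply, AlgStr.basis_apply, if_neg (by simp), zero_smul]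
    rfl
  rw [this]
  rfl

theorem del_eul : del A π E (eul A E) = 0 := by
  rw [del_apply, Submodule.Quotient.mk_eq_zero]
  refine (le_sup_left : Mg A E ≤ Mq A π E) ?_
  exact Submodule.subset_span ⟨none, rfl⟩

theorem mapHom_smul' (r : R) (x : A.Carrier) : A.mapHom π (r • x) = π r • A.mapHom π x := by
  funext k
  rw [AlgStr.mapHom_apply, AlgStr.smul_apply, map_mul]
  rfl

theorem mapHom_aeval (x : A.Carrier) (P : Polynomial R) :
    A.mapHom π (Polynomial.aeval x P) =
      Polynomial.aeval (A.mapHom π x) (P.map π) := by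
  induction P using Polynomial.induction_on' with
  | add P Q hP hQ => rw [map_add, map_add, hP, hQ, Polynomial.map_add, map_add]
  | monomial n r =>
    rw [Polynomial.aeval_monomial, Polynomial.map_monomial, Polynomial.aeval_monomial, map_mul,
      map_pow, Algebra.algebraMap_eq_smul_one, Algebra.algebraMap_eq_smul_one, mapHom_smul',
      map_one]

theorem del_of_separable (hπ : Function.Surjective π) {x : A.Carrier} {P : Polynomial K}
    (hP : P.Separable) (hx : Polynomial.aeval (A.mapHom π x) P = 0) : del A π E x = 0 := by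
  obtain ⟨Q, rfl⟩ := Polynomial.map_surjective π hπ P
  have h1 : del A π E (Polynomial.aeval x Q) = 0 :=
    del_eq_zero_of_map A π E (by rw [mapHom_aeval, hx])
  rw [Derivation.map_aeval] at h1
  obtain ⟨a, b, hab⟩ := hP
  obtain ⟨b, rfl⟩ := Polynomial.map_surjective π hπ b
  have h2 : A.mapHom π (Polynomial.aeval x b * Polynomial.aeval x (Polynomial.derivative Q) - 1) =
      0 := by
    rw [map_sub, map_mul, mapHom_aeval, mapHom_aeval, map_one]
    have h3 := congrArg (Polynomial.aeval (A.mapHom π x)) hab
    rw [map_add, map_mul, map_mul, hx, mul_zero, zero_add, map_one,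
      Polynomial.derivative_map] at h3
    rw [h3, sub_self]
  have h4 := smul_eq_zero_of_map A π E h2 (del A π E x)
  rw [sub_smul, one_smul, mul_smul, h1, smul_zero, zero_sub, neg_eq_zero] at h4
  exact h4

theorem mapHom_surjective (hπ : Function.Surjective π) : Function.Surjective (A.mapHom π) := by
  intro y
  choose x hx using fun k => hπ (y k)
  exact ⟨x, funext hx⟩

/-- every element of `genAlg` lifts to an element killed by the universal derivation -/
theorem exists_lift_genAlg (hπ : Function.Surjective π) {c : (A.map π).Carrier}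
    (hc : c ∈ genAlg A π E) : ∃ x : A.Carrier, A.mapHom π x = c ∧ del A π E x = 0 := by
  induction hc using Algebra.adjoin_induction with
  | mem c hc =>
    rcases hc with (⟨a, rfl⟩ | hc) | ⟨P, hP, hx⟩
    · refine ⟨A.basis (Sum.inl a), ?_, del_basis_inl A π E a⟩
      funext k
      rw [AlgStr.mapHom_apply, AlgStr.basis_apply]
      show _ = (A.map π).basis (Sum.inl a) k
      rw [AlgStr.basis_apply]
      split_ifs <;> simp
    · rw [Set.mem_singleton_iff] at hc
      exact ⟨eul A E, hc.symm, del_eul A π E⟩
    · obtain ⟨x, rfl⟩ := mapHom_surjective A π hπ c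
      exact ⟨x, rfl, del_of_separable A π E hπ hP hx⟩
  | algebraMap r =>
    obtain ⟨s, rfl⟩ := hπ r
    refine ⟨algebraMap R A.Carrier s, ?_, Derivation.map_algebraMap _ _⟩
    rw [Algebra.algebraMap_eq_smul_one, Algebra.algebraMap_eq_smul_one, mapHom_smul', map_one]
  | add x y _ _ hx hy =>
    obtain ⟨x, rfl, hx⟩ := hx
    obtain ⟨y, rfl, hy⟩ := hy
    exact ⟨x + y, map_add _ _ _, by rw [map_add, hx, hy, add_zero]⟩
  | mul x y _ _ hx hy =>
    obtain ⟨x, rfl, hx⟩ := hx
    obtain ⟨y, rfl, hy⟩ := hy
    exact ⟨x * y, map_mul _ _ _, by rw [Derivation.leibniz, hx, hy, smul_zero, smul_zero, add_zero]⟩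

theorem del_idem {e : A.Carrier} (he : e * e = e) : del A π E e = 0 := by
  have h1 := (del A π E).leibniz e e
  rw [he] at h1
  have h2 : e • del A π E e = 0 := by
    have h3 := congrArg (fun q => e • q) h1
    simp only [smul_add, smul_smul, he] at h3
    exact left_eq_add.mp h3
  rw [h2, add_zero] at h1
  exact h1

/-- `e` kills the universal derivation if the special fibre is generated over `e` -/
theorem smul_del (hπ : Function.Surjective π) {e : A.Carrier} (he : e * e = e)
    (hgen : ∀ x : (A.map π).Carrier, ∃ c ∈ genAlg A π E, A.mapHom π e * x = A.mapHom π e * c)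
    (x : A.Carrier) : e • del A π E x = 0 := by
  obtain ⟨c, hc, hxc⟩ := hgen (A.mapHom π x)
  obtain ⟨c, rfl, hc0⟩ := exists_lift_genAlg A π E hπ hc
  have h1 : del A π E (e * x - e * c) = 0 :=
    del_eq_zero_of_map A π E (by rw [map_sub, map_mul, map_mul, hxc, sub_self])
  rw [map_sub, Derivation.leibniz, Derivation.leibniz, del_idem A π E he, hc0, smul_zero,
    smul_zero, smul_zero, add_zero, add_zero, sub_zero] at h1
  exact h1

section nakayama

variable [IsLocalRing R]

theorem mem_maximalIdeal_of_map {r : R} (hr : π r = 0) : r ∈ IsLocalRing.maximalIdeal R := by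
  rw [IsLocalRing.mem_maximalIdeal, mem_nonunits_iff]
  intro hu
  exact (hu.map π).ne_zero hr

/-- **Nakayama** -/
theorem smul_mem_Mg (hπ : Function.Surjective π) {e : A.Carrier} (he : e * e = e)
    (hgen : ∀ x : (A.map π).Carrier, ∃ c ∈ genAlg A π E, A.mapHom π e * x = A.mapHom π e * c)
    (y : ν → A.Carrier) : e • y ∈ Mg A E := by
  classical
  -- modulo the special fibre
  have h0 : ∀ y : ν → A.Carrier, e • y ∈ Mq A π E := by
    intro y
    have h1 : ∀ j : ν, e • (Pi.single j (1 : A.Carrier) : ν → A.Carrier) ∈ Mq A π E := by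
      intro j
      have h2 := smul_del A π E hπ he hgen (A.basis (Sum.inr j))
      rw [del_apply, ← Submodule.Quotient.mk_smul, Submodule.Quotient.mk_eq_zero] at h2
      have h3 : vecL A (A.basis (Sum.inr j)) = (Pi.single j (1 : A.Carrier) : ν → A.Carrier) := by
        funext i
        rw [vecL_apply, AlgStr.basis_apply, Pi.single_apply]
        by_cases h : i = j
        · subst h; simp
        · rw [if_neg h, if_neg (fun h' => h (Sum.inr_injective h').symm), zero_smul]
      rwa [h3] at h2
    have h4 : y = ∑ j, y j • (Pi.single j (1 : A.Carrier) : ν → A.Carrier) := by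
      funext i
      rw [Finset.sum_apply, Finset.sum_eq_single i]
      · rw [Pi.smul_apply, Pi.single_eq_same, smul_eq_mul, mul_one]
      · intro j _ hj
        rw [Pi.smul_apply, Pi.single_eq_of_ne (Ne.symm hj), smul_zero]
      · intro h
        exact absurd (Finset.mem_univ _) h
    rw [h4, Finset.smul_sum]
    refine Submodule.sum_mem _ fun j _ => ?_
    rw [smul_comm]
    exact Submodule.smul_mem _ _ (h1 j)
  let eL : (ν → A.Carrier) →ₗ[R] (ν → A.Carrier) :=
    { toFun := fun x => e • x
      map_add' := fun x y => smul_add _ _ _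
      map_smul' := fun r x => by rw [RingHom.id_apply, smul_comm] }
  have heL : ∀ x, eL x = e • x := fun _ => rfl
  let P : Submodule R (ν → A.Carrier) := LinearMap.range eL
  have hPfg : P.FG := by
    have : Module.Finite R (ν → A.Carrier) := Module.Finite.pi
    exact Module.Finite.iff_fg.1 (inferInstance : Module.Finite R (LinearMap.range eL))
  have hmN : ∀ n ∈ mN (ν := ν) A π, e • n ∈ (IsLocalRing.maximalIdeal R) • P := by
    intro n hn
    have h1 : n = ∑ j, ∑ c, n j c • (Pi.single j (A.basis c) : ν → A.Carrier) := by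
      funext i
      rw [Finset.sum_apply, Finset.sum_eq_single i]
      · rw [Finset.sum_apply]
        conv_lhs => rw [← expand A (n i)]
        refine Finset.sum_congr rfl fun c _ => ?_
        rw [Pi.smul_apply, Pi.single_eq_same]
      · intro j _ hj
        rw [Finset.sum_apply]
        refine Finset.sum_eq_zero fun c _ => ?_
        rw [Pi.smul_apply, Pi.single_eq_of_ne (Ne.symm hj), smul_zero]
      · intro h
        exact absurd (Finset.mem_univ _) h
    rw [h1, Finset.smul_sum]
    refine Submodule.sum_mem _ fun j _ => ?_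
    rw [Finset.smul_sum]
    refine Submodule.sum_mem _ fun c _ => ?_
    rw [smul_comm]
    refine Submodule.smul_mem_smul (mem_maximalIdeal_of_map π ?_) ⟨_, rfl⟩
    have := congrFun (hn j) c
    rwa [AlgStr.mapHom_apply] at this
  have hle : P ≤ (Mg (ν := ν) A E).restrictScalars R ⊔ (IsLocalRing.maximalIdeal R) • P := by
    rintro _ ⟨x, rfl⟩
    have h1 := h0 x
    obtain ⟨m, hm, n, hn, hmn⟩ := Submodule.mem_sup.1 h1
    have h2 : eL x = e • m + e • n := by
      rw [← smul_add, hmn, smul_smul, he]
      rfl
    rw [h2]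
    exact Submodule.add_mem_sup (Submodule.smul_mem (Mg A E) e hm) (hmN n hn)
  have hfin := Submodule.le_of_le_smul_of_le_jacobson_bot hPfg
    (IsLocalRing.maximalIdeal_le_jacobson _) hle
  exact hfin ⟨y, rfl⟩

/-- derivations with prescribed values on the transversal coordinates -/
theorem exists_compat (hpot : ∀ a b c k, D a (A.m b c k) = D b (A.m a c k))
    (heul : ∀ b c k, ∑ i, E i * D i (A.m b c k) = (p b + p c - p k) * A.m b c k)
    (hπ : Function.Surjective π) {e : A.Carrier} (he : e * e = e)
    (hgen : ∀ x : (A.map π).Carrier, ∃ c ∈ genAlg A π E, A.mapHom π e * x = A.mapHom π e * c)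
    (j : ν) : ∃ v w : κ ⊕ ν → A.Carrier, Compat D A v w ∧
      ∀ i : ν, v (Sum.inr i) = if i = j then e else 0 := by
  classical
  have h1 := smul_mem_Mg A π E hπ he hgen (Pi.single j (1 : A.Carrier))
  obtain ⟨q, hq⟩ := (Submodule.mem_span_range_iff_exists_fun A.Carrier).1 h1
  refine ⟨_, _, Compat.combo Finset.univ q fun t _ => compat_g D A E p hpot heul t, ?_⟩
  intro i
  have h2 := congrFun hq i
  rw [Finset.sum_apply, Pi.smul_apply, Pi.single_apply] at h2
  simp only [Pi.smul_apply, smul_eq_mul] at h2
  rw [h2]
  split_ifs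
  · rw [mul_one]
  · rw [mul_zero]

end nakayama

end Pool.Agent.Helper5.DubGen.G
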