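import Pool.Agent.Helper5.DubGen.GNak

/-!
# Order filtration and lifting of idempotents over power series rings over a field
-/

open scoped BigOperators
open Finset MvPowerSeries

namespace Pool.Agent.Helper5.DubGen.G

open Pool.Agent.Helper18.Dub

variable {K : Type} [Field K] {ν : Type}

/-- power series of order at least `k` -/
def Od (k : ℕ) (f : MvPowerSeries ν K) : Prop := ∀ m : ν →₀ ℕ, m.degree < k → coeff m f = 0

theorem Od.zero (k : ℕ) : Od k (0 : MvPowerSeries ν K) := fun _ _ => map_zero _

theorem od_zero (f : MvPowerSeries ν K) : Od 0 f := fun _ hm => absurd hm (Nat.not_lt_zero _)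

theorem Od.mono {k l : ℕ} {f : MvPowerSeries ν K} (h : Od k f) (hl : l ≤ k) : Od l f :=
  fun m hm => h m (by omega)

theorem Od.add {k : ℕ} {f g : MvPowerSeries ν K} (hf : Od k f) (hg : Od k g) : Od k (f + g) :=
  fun m hm => by rw [map_add, hf m hm, hg m hm, add_zero]

theorem Od.neg {k : ℕ} {f : MvPowerSeries ν K} (hf : Od k f) : Od k (-f) :=
  fun m hm => by rw [map_neg, hf m hm, neg_zero]

theorem Od.sub {k : ℕ} {f g : MvPowerSeries ν K} (hf : Od k f) (hg : Od k g) : Od k (f - g) :=
  fun m hm => by rw [map_sub, hf m hm, hg m hm, sub_zero]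

theorem Od.sum {k : ℕ} {β : Type*} (s : Finset β) (f : β → MvPowerSeries ν K)
    (h : ∀ b ∈ s, Od k (f b)) : Od k (∑ b ∈ s, f b) := fun m hm => by
  rw [map_sum]
  exact Finset.sum_eq_zero fun b hb => h b hb m hm

theorem Od.mul {k l : ℕ} {f g : MvPowerSeries ν K} (hf : Od k f) (hg : Od l g) :
    Od (k + l) (f * g) := fun m hm => by
  classical
  rw [coeff_mul]
  refine Finset.sum_eq_zero fun q hq => ?_
  rw [Finset.HasAntidiagonal.mem_antidiagonal] at hq
  rw [← hq, map_add] at hm
  by_cases h1 : q.1.degree < k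
  · rw [hf _ h1, zero_mul]
  · rw [hg q.2 (by omega), mul_zero]

theorem Od.mul_left {k : ℕ} {f : MvPowerSeries ν K} (h : Od k f) (g : MvPowerSeries ν K) :
    Od k (g * f) := by
  have := (od_zero g).mul h
  rwa [zero_add] at this

theorem Od.mul_right {k : ℕ} {f : MvPowerSeries ν K} (h : Od k f) (g : MvPowerSeries ν K) :
    Od k (f * g) := by
  rw [mul_comm]; exact h.mul_left g

theorem eq_zero_of_od {f : MvPowerSeries ν K} (h : ∀ k, Od k f) : f = 0 := by
  ext m
  rw [h (m.degree + 1) m (Nat.lt_succ_self _), map_zero]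

theorem od_one_iff {f : MvPowerSeries ν K} : Od 1 f ↔ constantCoeff f = 0 := by
  constructor
  · intro h
    rw [← coeff_zero_eq_constantCoeff_apply]
    exact h 0 (by simp)
  · intro h m hm
    have h1 : m.degree = 0 := by omega
    have : m = 0 := (Finsupp.degree_eq_zero_iff m).1 h1
    rw [this, coeff_zero_eq_constantCoeff_apply, h]

theorem od_X (j : ν) : Od 1 (X j : MvPowerSeries ν K) := by
  rw [od_one_iff]
  exact constantCoeff_X j

/-- coefficientwise limits -/
theorem coeff_X_mul_pderiv' (f : MvPowerSeries ν K) (i : ν) (m : ν →₀ ℕ) :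
    coeff m (X i * pderiv K i f) = (m i : K) * coeff m f := by
  classical
  by_cases h : m i = 0
  · rw [h, Nat.cast_zero, zero_mul, X, coeff_monomial_mul, if_neg]
    intro hle
    have := hle i
    rw [Finsupp.single_eq_same] at this
    omega
  · have hle : Finsupp.single i 1 ≤ m := by
      rw [Finsupp.single_le_iff]; omega
    rw [X, coeff_monomial_mul, if_pos hle, one_mul, coeff_pderiv,
      tsub_add_cancel_of_le hle]
    have h1 : (((m - Finsupp.single i 1 : ν →₀ ℕ) i : ℕ) : K) + 1 = m i := by
      rw [Finsupp.tsub_apply, Finsupp.single_eq_same]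
      have : 1 ≤ m i := by omega
      push_cast [Nat.cast_sub this]
      ring
    rw [h1, mul_comm]

theorem od_euler [Fintype ν] {k : ℕ} {f : MvPowerSeries ν K} (hf : Od k f) :
    Od (k + 1) ((∑ j, X j * pderiv K j f) - (k : MvPowerSeries ν K) * f) := by
  intro m hm
  have h1 : ((k : MvPowerSeries ν K)) = C (k : K) := by simp
  rw [map_sub, map_sum, Finset.sum_congr rfl fun j _ => coeff_X_mul_pderiv' f j m,
    ← Finset.sum_mul, h1, coeff_C_mul]
  by_cases h2 : m.degree < k
  · rw [hf m h2, mul_zero, mul_zero, sub_zero]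
  · have h3 : m.degree = k := by omega
    have h4 : ∑ j, (m j : K) = (k : K) := by
      rw [← h3, Finsupp.degree_eq_sum]
      push_cast
      rfl
    rw [h4, sub_self]

theorem isLocalRing_mvPowerSeries : IsLocalRing (MvPowerSeries ν K) := inferInstance

section alg

variable {σ : Type} [Fintype σ] [DecidableEq σ] (A : AlgStr (MvPowerSeries ν K) σ)

/-- filtration -/
def Oc (k : ℕ) (x : A.Carrier) : Prop := ∀ c, Od k (x c)

variable {A}

theorem sub_apply (x y : A.Carrier) (c : σ) : (x - y) c = x c - y c := rfl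

theorem sum_apply {β : Type*} (s : Finset β) (f : β → A.Carrier) (c : σ) :
    (∑ b ∈ s, f b) c = ∑ b ∈ s, f b c := by
  classical
  induction s using Finset.induction_on with
  | empty => rfl
  | insert b s hb ih => rw [Finset.sum_insert hb, Finset.sum_insert hb, AlgStr.add_apply, ih]

theorem Oc.zero (k : ℕ) : Oc A k 0 := fun _ => Od.zero k

theorem oc_zero (x : A.Carrier) : Oc A 0 x := fun c => od_zero (x c)

theorem Oc.mono {k l : ℕ} {x : A.Carrier} (h : Oc A k x) (hl : l ≤ k) : Oc A l x :=
  fun c => (h c).mono hl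

theorem Oc.add {k : ℕ} {x y : A.Carrier} (hx : Oc A k x) (hy : Oc A k y) : Oc A k (x + y) :=
  fun c => (hx c).add (hy c)

theorem Oc.sub {k : ℕ} {x y : A.Carrier} (hx : Oc A k x) (hy : Oc A k y) : Oc A k (x - y) :=
  fun c => (hx c).sub (hy c)

theorem Oc.sum {k : ℕ} {β : Type*} (s : Finset β) (f : β → A.Carrier)
    (h : ∀ b ∈ s, Oc A k (f b)) : Oc A k (∑ b ∈ s, f b) := fun c => by
  rw [sum_apply]
  exact Od.sum _ _ fun b hb => h b hb c

theorem Oc.mul {k l : ℕ} {x y : A.Carrier} (hx : Oc A k x) (hy : Oc A l y) :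
    Oc A (k + l) (x * y) := fun c => by
  rw [AlgStr.mul_apply]
  refine Od.sum _ _ fun a _ => Od.sum _ _ fun b _ => ?_
  exact ((hx a).mul (hy b)).mul_right _

theorem Oc.mul_right {k : ℕ} {x : A.Carrier} (hx : Oc A k x) (y : A.Carrier) :
    Oc A k (x * y) := hx.mul (oc_zero y)

theorem Oc.mul_left {k : ℕ} {x : A.Carrier} (hx : Oc A k x) (y : A.Carrier) :
    Oc A k (y * x) := by
  rw [mul_comm]; exact hx.mul_right y

theorem Oc.smul {k : ℕ} {x : A.Carrier} (hx : Oc A k x) (r : MvPowerSeries ν K) :
    Oc A k (r • x) := fun c => (hx c).mul_left r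

theorem Oc.smul' {k : ℕ} {r : MvPowerSeries ν K} (hr : Od k r) (x : A.Carrier) :
    Oc A k (r • x) := fun c => hr.mul_right (x c)

theorem eq_zero_of_oc {x : A.Carrier} (h : ∀ k, Oc A k x) : x = 0 := by
  funext c
  exact eq_zero_of_od fun k => h k c

theorem oc_one_iff {x : A.Carrier} :
    Oc A 1 x ↔ A.mapHom (constantCoeff (σ := ν) (R := K)) x = 0 := by
  constructor
  · intro h
    funext c
    rw [AlgStr.mapHom_apply, AlgStr.zero_apply]
    exact od_one_iff.1 (h c)
  · intro h c
    have := congrFun h c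
    rw [AlgStr.mapHom_apply, AlgStr.zero_apply] at this
    exact od_one_iff.2 this

/-- constant lift -/
noncomputable def clift (x : (A.map (constantCoeff (σ := ν) (R := K))).Carrier) : A.Carrier :=
  fun c => C (x c)

theorem mapHom_clift (x : (A.map (constantCoeff (σ := ν) (R := K))).Carrier) :
    A.mapHom (constantCoeff (σ := ν) (R := K)) (clift x) = x := by
  funext c
  rw [AlgStr.mapHom_apply]
  show constantCoeff (C (x c)) = x c
  simp

/-- coefficientwise limit of a sequence -/
noncomputable def lim (s : ℕ → A.Carrier) : A.Carrier :=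
  fun c m => coeff m (s m.degree c)

theorem oc_lim_sub {s : ℕ → A.Carrier} (hs : ∀ n, Oc A (n + 1) (s (n + 1) - s n)) (n : ℕ) :
    Oc A (n + 1) (lim s - s n) := by
  have hk : ∀ n k, Oc A (n + 1) (s (n + k) - s n) := by
    intro n k
    induction k with
    | zero => rw [add_zero, sub_self]; exact Oc.zero _
    | succ k ih =>
      have h1 : s (n + (k + 1)) - s n = (s (n + k + 1) - s (n + k)) + (s (n + k) - s n) := by
        rw [← add_assoc]; ring
      rw [h1]
      exact ((hs (n + k)).mono (by omega)).add ih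
  intro c m hm
  rw [sub_apply, map_sub]
  have h1 : coeff m (lim s c) = coeff m (s m.degree c) := rfl
  rw [h1, ← neg_eq_zero, neg_sub]
  obtain ⟨k, rfl⟩ : ∃ k, n = m.degree + k := ⟨n - m.degree, by omega⟩
  have h3 := hk m.degree k c m (Nat.lt_succ_self _)
  rw [sub_apply, map_sub] at h3
  exact h3

/-- Newton iteration for idempotents -/
noncomputable def newton (x0 : A.Carrier) : ℕ → A.Carrier
  | 0 => x0
  | n + 1 => 3 * newton x0 n ^ 2 - 2 * newton x0 n ^ 3

theorem newton_idem (x0 : A.Carrier) (h0 : Oc A 1 (x0 * x0 - x0)) (n : ℕ) :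
    Oc A (n + 1) (newton x0 n * newton x0 n - newton x0 n) := by
  induction n with
  | zero => exact h0
  | succ n ih =>
    have h1 : newton x0 (n + 1) * newton x0 (n + 1) - newton x0 (n + 1) =
        (newton x0 n * newton x0 n - newton x0 n) * (newton x0 n * newton x0 n - newton x0 n) *
          (4 * newton x0 n ^ 2 - 4 * newton x0 n - 3) := by
      show (3 * newton x0 n ^ 2 - 2 * newton x0 n ^ 3) * (3 * newton x0 n ^ 2 -
        2 * newton x0 n ^ 3) - (3 * newton x0 n ^ 2 - 2 * newton x0 n ^ 3) = _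
      ring
    rw [h1]
    exact ((ih.mul ih).mono (by omega)).mul_right _

theorem newton_step (x0 : A.Carrier) (h0 : Oc A 1 (x0 * x0 - x0)) (n : ℕ) :
    Oc A (n + 1) (newton x0 (n + 1) - newton x0 n) := by
  have h1 : newton x0 (n + 1) - newton x0 n =
      (newton x0 n * newton x0 n - newton x0 n) * (1 - 2 * newton x0 n) := by
    show (3 * newton x0 n ^ 2 - 2 * newton x0 n ^ 3) - newton x0 n = _
    ring
  rw [h1]
  exact (newton_idem x0 h0 n).mul_right _

/-- Idempotents of the special fibre lift. -/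
theorem exists_idem_lift (eb : (A.map (constantCoeff (σ := ν) (R := K))).Carrier)
    (heb : eb * eb = eb) :
    ∃ e : A.Carrier, e * e = e ∧ A.mapHom (constantCoeff (σ := ν) (R := K)) e = eb := by
  have h0 : Oc A 1 (clift eb * clift eb - clift eb) := by
    rw [oc_one_iff, map_sub, map_mul, mapHom_clift, heb, sub_self]
  refine ⟨lim (newton (clift eb)), ?_, ?_⟩
  · rw [← sub_eq_zero]
    refine eq_zero_of_oc fun k => ?_
    have h1 : lim (newton (clift eb)) * lim (newton (clift eb)) - lim (newton (clift eb)) =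
        (lim (newton (clift eb)) - newton (clift eb) k) *
          (lim (newton (clift eb)) + newton (clift eb) k - 1) +
        (newton (clift eb) k * newton (clift eb) k - newton (clift eb) k) := by ring
    rw [h1]
    exact ((oc_lim_sub (newton_step _ h0) k).mul_right _ |>.add (newton_idem _ h0 k)).mono
      (by omega)
  · have h1 := oc_lim_sub (newton_step _ h0) 0
    rw [zero_add, oc_one_iff, map_sub] at h1
    have h2 : newton (clift eb) 0 = clift eb := rfl
    rw [h2, mapHom_clift, sub_eq_zero] at h1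
    exact h1

end alg

end Pool.Agent.Helper5.DubGen.G
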