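import Pool.Agent.Helper5.DubGen.SDefs
import Pool.Agent.Helper5.DubGen.GGen
import Pool.Agent.Helper1.DubProd.Main
import Pool.Agent.Helper93.QGen

/-!
# Big quantum cohomology and a generating subspace: the theorem
-/

open scoped BigOperators
open Finset MvPowerSeries

namespace Pool.Agent.Helper5.DubGen.G

open Pool.Agent.Helper18.Dub Pool.Agent.Helper1.DubProd

section K

variable {κ ν : Type} [Fintype κ] [DecidableEq κ] [Fintype ν] [DecidableEq ν]
  (K : Type) [Field K] [Algebra (MvPowerSeries κ ℂ) K] [IsFractionRing (MvPowerSeries κ ℂ) K]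
  [CharZero K] (X : FanoGW (κ ⊕ ν))

/-- Quantitative block theorem for matrices. -/
theorem quant_mat {e : Matrix (κ ⊕ ν) (κ ⊕ ν) K}
    (he : e ∈ MA (BX K X)) (hee : e * e = e)
    (hgen : ∀ M ∈ MA (BX K X), ∃ M' ∈ genMA (BX K X) (c1v K X (BX K X)), e * M = e * M')
    (W : Submodule K (Matrix (κ ⊕ ν) (κ ⊕ ν) K))
    (hW : ∀ M ∈ W, M ∈ MA (BX K X) ∧ IsNilpotent M ∧ e * M = M) :
    srk X.QH + Module.finrank K W ≤ Fintype.card (κ ⊕ ν) := by
  rw [← range_L] at he
  obtain ⟨e, rfl⟩ := he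
  have hinj := Algebra.leftMulMatrix_injective (BX K X).basis
  have he' : e * e = e := by
    apply hinj
    rw [map_mul]
    exact hee
  let b := Module.finBasis K W
  have h1 : ∀ i, ∃ y : (BX K X).Carrier,
      Algebra.leftMulMatrix (BX K X).basis y = (b i : Matrix (κ ⊕ ν) (κ ⊕ ν) K) := by
    intro i
    have h2 := (hW _ (b i).2).1
    rw [← range_L] at h2
    exact h2
  choose y hy using h1
  refine quant K X (B := BX K X) rfl he'
    (gen_of_genMA (BX K X) (c1v K X (BX K X)) e hgen) y ?_ ?_ ?_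
  · intro i
    rw [← IsNilpotent.map_iff hinj, hy]
    exact (hW _ (b i).2).2.1
  · intro i
    apply hinj
    rw [map_mul, hy]
    exact (hW _ (b i).2).2.2
  · have h3 : LinearIndependent K (fun i => (b i : Matrix (κ ⊕ ν) (κ ⊕ ν) K)) :=
      b.linearIndependent.map' W.subtype (Submodule.ker_subtype _)
    have h4 : (fun i => (b i : Matrix (κ ⊕ ν) (κ ⊕ ν) K)) =
        (Algebra.leftMulMatrix (BX K X).basis).toLinearMap ∘ y := by
      funext i
      exact (hy i).symm
    rw [h4] at h3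
    exact h3.of_comp _

/-- the trace rank and generic semisimplicity from generation -/
theorem srk_eq_mat (hgen : genMA (BX K X) (c1v K X (BX K X)) = MA (BX K X)) :
    srk X.QHres = srk X.QH := by
  refine srk_eq K X (B := BX K X) rfl ?_
  rw [eq_top_iff]
  intro x _
  have h1 : Algebra.leftMulMatrix (BX K X).basis x ∈ genMA (BX K X) (c1v K X (BX K X)) := by
    rw [hgen, ← range_L]
    exact ⟨x, rfl⟩
  rw [genMA_eq] at h1
  obtain ⟨y, hy, hxy⟩ := h1
  have h2 : y = x := Algebra.leftMulMatrix_injective (BX K X).basis hxy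
  rw [← h2]
  exact hy

omit [IsFractionRing (MvPowerSeries κ ℂ) K] [CharZero K] in
theorem genMA_eq_of_genR (h : genR X = ⊤) :
    genMA (BX K X) (c1v K X (BX K X)) = MA (BX K X) := by
  rw [genMA_eq, genC_eq_top X K h, ← range_L, Algebra.map_top]

end K

section final

variable {κ ν : Type} [Fintype κ] [DecidableEq κ] [Fintype ν] [DecidableEq ν]
  (X : FanoGW (κ ⊕ ν))

instance instCZ : CharZero (FractionRing (MvPowerSeries κ ℂ)) :=
  AlgStr.charZero_fractionRing (R := MvPowerSeries κ ℂ)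

theorem matAlg_eq : matAlg X.resMat = MA (BX (FractionRing (MvPowerSeries κ ℂ)) X) := rfl

theorem genSub_eq : genSub X = genMA (BX (FractionRing (MvPowerSeries κ ℂ)) X)
    (c1v (FractionRing (MvPowerSeries κ ℂ)) X (BX (FractionRing (MvPowerSeries κ ℂ)) X)) := rfl

theorem traceRankRes_eq : traceRankRes X = srk X.QHres := by
  rw [traceRankRes, srk, grk]
  congr 2
  ext1 a b
  rw [Matrix.of_apply, trm, Algebra.traceMatrix_apply, AlgStr.traceForm_basis, Matrix.trace]
  refine Finset.sum_congr rfl fun k _ => ?_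
  rw [Matrix.diag_apply, Matrix.mul_apply]
  rfl

theorem partA1 {e : Matrix (κ ⊕ ν) (κ ⊕ ν) (FractionRing (MvPowerSeries κ ℂ))}
    (he : e ∈ matAlg X.resMat) (hee : e * e = e)
    (hgen : ∀ M ∈ matAlg X.resMat, ∃ M' ∈ genSub X, e * M = e * M')
    (hss : X.IsGenericallySemisimple)
    {M : Matrix (κ ⊕ ν) (κ ⊕ ν) (FractionRing (MvPowerSeries κ ℂ))}
    (hM : M ∈ matAlg X.resMat) (hnil : IsNilpotent M) : e * M = 0 :=
  block_mat (FractionRing (MvPowerSeries κ ℂ)) X (X.isGenericallySemisimple_iff.1 hss) he hee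
    hgen hM hnil

theorem partA2 {e : Matrix (κ ⊕ ν) (κ ⊕ ν) (FractionRing (MvPowerSeries κ ℂ))}
    (he : e ∈ matAlg X.resMat) (hee : e * e = e)
    (hgen : ∀ M ∈ matAlg X.resMat, ∃ M' ∈ genSub X, e * M = e * M')
    (W : Submodule (FractionRing (MvPowerSeries κ ℂ))
      (Matrix (κ ⊕ ν) (κ ⊕ ν) (FractionRing (MvPowerSeries κ ℂ))))
    (hW : ∀ M ∈ W, M ∈ matAlg X.resMat ∧ IsNilpotent M ∧ e * M = M) :
    traceRank X + Module.finrank (FractionRing (MvPowerSeries κ ℂ)) W ≤
      Fintype.card (κ ⊕ ν) := by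
  rw [traceRank_eq_srk]
  exact quant_mat (FractionRing (MvPowerSeries κ ℂ)) X he hee hgen W hW

theorem partB (hgen : genSub X = matAlg X.resMat) : traceRank X = traceRankRes X ∧
    (X.IsGenericallySemisimple ↔ IsSemisimpleRing (matAlg X.resMat)) := by
  have h1 : srk X.QHres = srk X.QH :=
    srk_eq_mat (FractionRing (MvPowerSeries κ ℂ)) X hgen
  refine ⟨by rw [traceRank_eq_srk, traceRankRes_eq, h1], ?_⟩
  rw [X.isGenericallySemisimple_iff, X.matAlg_res_iff, AlgStr.genericallySemisimple_iff,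
    AlgStr.genericallySemisimple_iff, ← srk_eq_card_iff, ← srk_eq_card_iff, h1]

theorem partC' {S : Set X.smallQH.Carrier} (hS : ∀ x ∈ S, x * x = x)
    (h : Algebra.adjoin ℂ ((Set.range fun a : κ => X.smallQH.basis (Sum.inl a)) ∪
      {X.c1class} ∪ S) = ⊤) : genSub X = matAlg X.resMat := by
  refine genMA_eq_of_genR (FractionRing (MvPowerSeries κ ℂ)) X ?_
  refine genR_eq_top X (B := X.smallQH) rfl ?_
  rw [eq_top_iff, ← h]
  refine Algebra.adjoin_mono ?_
  rintro x ((hx | hx) | hx)
  · exact Or.inl (Or.inl hx)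
  · exact Or.inl (Or.inr hx)
  · exact Or.inr (hS x hx)

theorem partC (h : Algebra.adjoin ℂ ((Set.range fun a : κ => X.smallMat (Sum.inl a)) ∪
      {X.chernMat} ∪ {M | M ∈ Algebra.adjoin ℂ (Set.range X.smallMat) ∧ M * M = M}) =
    Algebra.adjoin ℂ (Set.range X.smallMat)) : genSub X = matAlg X.resMat := by
  refine partC' X (S := {x | x * x = x}) (fun x hx => hx) ?_
  set L := Algebra.leftMulMatrix X.smallQH.basis with hL
  have hinj : Function.Injective L := Algebra.leftMulMatrix_injective X.smallQH.basis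
  have h0 : Algebra.adjoin ℂ (Set.range X.smallMat) = L.range := by
    have h1 : X.smallMat = fun a => X.smallQH.matOf a := funext X.smallMat_eq
    rw [h1, ← X.smallQH.map_adjoin fun a => a, X.smallQH.adjoin_basis, Algebra.map_top]
  have h2 : (Algebra.adjoin ℂ ((Set.range fun a : κ => X.smallQH.basis (Sum.inl a)) ∪
      {X.c1class} ∪ {x | x * x = x})).map L = (⊤ : Subalgebra ℂ X.smallQH.Carrier).map L := by
    rw [Algebra.map_top, ← h0, ← h, AlgHom.map_adjoin, Set.image_union, Set.image_union,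
      Set.image_singleton]
    congr 2
    · congr 1
      · rw [← Set.range_comp]
        congr 1
        funext a
        show L (X.smallQH.basis (Sum.inl a)) = _
        rw [X.smallMat_eq]
        exact X.smallQH.leftMulMatrix_eq_matOf _
      · rw [X.chernMat_eq]
    · ext M
      constructor
      · rintro ⟨x, hx, rfl⟩
        have hx' : x * x = x := hx
        refine ⟨by rw [h0]; exact ⟨x, rfl⟩, ?_⟩
        rw [← map_mul, hx']
      · rintro ⟨hM, hMM⟩
        rw [h0] at hM
        obtain ⟨x, rfl⟩ := hM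
        refine ⟨x, hinj ?_, rfl⟩
        rw [map_mul]
        exact hMM
  exact Subalgebra.map_injective hinj h2

theorem partD (h : ∀ W : Submodule ℂ (κ ⊕ ν → ℂ), Pi.single X.one 1 ∈ W →
      (∀ a : κ, ∀ w ∈ W, (cupOf X (Sum.inl a)).mulVec w ∈ W) →
      (∀ w ∈ W, X.cupMat.mulVec w ∈ W) → W = ⊤) : genSub X = matAlg X.resMat := by
  refine partC' X (S := ∅) (fun x hx => hx.elim) ?_
  rw [Set.union_empty]
  exact Pool.Agent.Helper93.QGen.adjoin_inl_eq_top X h

end final

end Pool.Agent.Helper5.DubGen.G
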