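import Pool.Agent.Helper1.DubProd.Defs

/-!
# Quantum cohomology at the generic point of a subspace: definitions for the statement
-/

open scoped BigOperators
open Finset MvPowerSeries

namespace Pool.Agent.Helper5.DubGen

open Pool.Agent.Helper18.Dub

variable {κ ν : Type} [Fintype κ] [DecidableEq κ] [Fintype ν] [DecidableEq ν]
  (X : FanoGW (κ ⊕ ν))

/-- The matrix of quantum multiplication `φ_i •` at the generic point of the span `H'` of the
classes `φ_a`, `a ∈ κ`: the entries are in the field of fractions `K` of `ℂ[[t_a : a ∈ κ]]`. -/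
noncomputable def genMat (i : κ ⊕ ν) :
    Matrix (κ ⊕ ν) (κ ⊕ ν) (FractionRing (MvPowerSeries κ ℂ)) :=
  (X.resMat i).map (algebraMap (MvPowerSeries κ ℂ) (FractionRing (MvPowerSeries κ ℂ)))

/-- The matrix of quantum multiplication by `c_1(X)` at the generic point of `H'`. -/
noncomputable def genChern : Matrix (κ ⊕ ν) (κ ⊕ ν) (FractionRing (MvPowerSeries κ ℂ)) :=
  ∑ i, algebraMap (MvPowerSeries κ ℂ) (FractionRing (MvPowerSeries κ ℂ)) (C (X.chern i)) •
    genMat X i

/-- The subalgebra of the quantum cohomology algebra `matAlg X.resMat` at the generic point of `H'`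
generated by the classes `φ_a`, `a ∈ κ`, by `c_1(X)` and by all semisimple elements, i.e. elements
with separable minimal polynomial over `K` (for instance all idempotents). -/
noncomputable def genSub : Subalgebra (FractionRing (MvPowerSeries κ ℂ))
    (Matrix (κ ⊕ ν) (κ ⊕ ν) (FractionRing (MvPowerSeries κ ℂ))) :=
  Algebra.adjoin (FractionRing (MvPowerSeries κ ℂ))
    ((Set.range fun a : κ => genMat X (Sum.inl a)) ∪ {genChern X} ∪
      {M | M ∈ matAlg X.resMat ∧ (minpoly (FractionRing (MvPowerSeries κ ℂ)) M).Separable})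

/-- The rank of the trace form `(φ_a, φ_b) ↦ tr (φ_a • φ_b •)` of quantum cohomology at the generic
point of `H'` (compare `traceRank`, which is the rank at the generic point of the whole
cohomology). -/
noncomputable def traceRankRes : ℕ :=
  ((Matrix.of fun a b => (X.resMat a * X.resMat b).trace).map
    (algebraMap (MvPowerSeries κ ℂ) (FractionRing (MvPowerSeries κ ℂ)))).rank

/-- The matrix of the classical cup product with `φ_a`. -/
noncomputable def cupOf {ι : Type} [Fintype ι] [DecidableEq ι] (X : FanoGW ι) (a : ι) :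
    Matrix ι ι ℂ :=
  Matrix.of fun k b => ∑ l, X.pair⁻¹ k l * X.inv X.zero {a, b, l}

/-- The small quantum cohomology algebra (at `t = 0`) is generated by `H'`, `c_1(X)` and
idempotents. -/
def SmallGenerated : Prop :=
  Algebra.adjoin ℂ ((Set.range fun a : κ => X.smallMat (Sum.inl a)) ∪ {X.chernMat} ∪
      {M | M ∈ Algebra.adjoin ℂ (Set.range X.smallMat) ∧ M * M = M}) =
    Algebra.adjoin ℂ (Set.range X.smallMat)

/-- The classical cohomology ring is generated by `H'` and `c_1(X)`: a subspace which contains the
unit class and is stable under the cup products with `φ_a`, `a ∈ κ`, and with `c_1(X)`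
is the whole cohomology. -/
def CupGenerated : Prop :=
  ∀ W : Submodule ℂ (κ ⊕ ν → ℂ), Pi.single X.one 1 ∈ W →
    (∀ a : κ, ∀ w ∈ W, (cupOf X (Sum.inl a)).mulVec w ∈ W) →
    (∀ w ∈ W, X.cupMat.mulVec w ∈ W) → W = ⊤

end Pool.Agent.Helper5.DubGen
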